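import Mathlib

/-!
A crossing lemma in the disc for two continuous paths, by a continuous choice of angle.
-/

set_option autoImplicit false
open Set Filter Topology

namespace Pool.Agent.Helper590.Hex

/-- Continuous angle of a nowhere zero function on the plane. -/
theorem exists_lift (P : ℝ × ℝ → ℂ) (hP : Continuous P) (h0 : ∀ p, P p ≠ 0) :
    ∃ Θ : ℝ × ℝ → ℝ, Continuous Θ ∧ ∀ p, P p = (‖P p‖ : ℂ) * Complex.exp (Θ p * Complex.I) := by
  have hnorm : ∀ p, ‖P p / (‖P p‖ : ℂ)‖ = 1 := by
    intro p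
    rw [norm_div, Complex.norm_real, norm_norm]
    exact div_self (norm_ne_zero_iff.2 (h0 p))
  let U : C(ℝ × ℝ, Circle) :=
    ⟨fun p => ⟨P p / (‖P p‖ : ℂ), mem_sphere_zero_iff_norm.2 (hnorm p)⟩, by
      apply Continuous.subtype_mk
      apply Continuous.div hP
      · exact Complex.continuous_ofReal.comp hP.norm
      · intro p
        exact_mod_cast norm_ne_zero_iff.2 (h0 p)⟩
  obtain ⟨e0, he0⟩ : ∃ e0 : ℝ, Circle.exp e0 = U (0, 0) :=
    ⟨Complex.arg (U (0, 0)), Circle.exp_arg (U (0, 0))⟩
  obtain ⟨Θ, ⟨_, hΘ⟩, _⟩ :=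
    Circle.isCoveringMap_exp.existsUnique_continuousMap_lifts U (0, 0) e0 he0
  refine ⟨Θ, Θ.continuous, fun p => ?_⟩
  have h1 : Circle.exp (Θ p) = U p := congrFun hΘ p
  have h2 : Complex.exp ((Θ p : ℝ) * Complex.I) = P p / (‖P p‖ : ℂ) := by
    have h4 : ((Circle.exp (Θ p) : Circle) : ℂ) = ((U p : Circle) : ℂ) := congrArg _ h1
    rw [Circle.coe_exp] at h4
    exact h4
  rw [h2, mul_div_cancel₀]
  exact_mod_cast norm_ne_zero_iff.2 (h0 p)

/-- Where `cos (θ + α) > 0` the angle is compared by the sine. -/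
theorem angle_lt {X : Type*} [TopologicalSpace X] (θ : X → ℝ) (hθ : Continuous θ) (α : ℝ)
    (S : Set X) (hS : IsPreconnected S) (hcos : ∀ s ∈ S, 0 < Real.cos (θ s + α))
    (p q : X) (hp : p ∈ S) (hq : q ∈ S)
    (hs : Real.sin (θ p + α) < Real.sin (θ q + α)) : θ p < θ q := by
  by_contra hcon
  push Not at hcon
  have himg : IsPreconnected (θ '' S) := hS.image θ hθ.continuousOn
  have hoc := himg.ordConnected
  have hcos' : ∀ v ∈ Icc (θ q + α) (θ p + α), 0 < Real.cos v := by
    intro v hv
    have hmem : v - α ∈ θ '' S := by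
      apply hoc.out ⟨q, hq, rfl⟩ ⟨p, hp, rfl⟩
      exact ⟨by linarith [hv.1], by linarith [hv.2]⟩
    obtain ⟨s, hs', hsv⟩ := hmem
    have := hcos s hs'
    rw [hsv, sub_add_cancel] at this
    exact this
  have hmono : StrictMonoOn Real.sin (Icc (θ q + α) (θ p + α)) := by
    apply strictMonoOn_of_deriv_pos (convex_Icc _ _) Real.continuous_sin.continuousOn
    intro v hv
    rw [interior_Icc] at hv
    rw [Real.deriv_sin]
    exact hcos' v ⟨hv.1.le, hv.2.le⟩
  have hle : θ q + α ≤ θ p + α := by linarith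
  have h1 : Real.sin (θ q + α) ≤ Real.sin (θ p + α) :=
    hmono.monotoneOn ⟨le_rfl, hle⟩ ⟨hle, le_rfl⟩ hle
  linarith

theorem edge (H : ℝ × ℝ → ℂ) (θ : ℝ × ℝ → ℝ) (hθ : Continuous θ)
    (hH : ∀ p, H p = (‖H p‖ : ℂ) * Complex.exp (θ p * Complex.I)) (h0 : ∀ p, H p ≠ 0)
    (u : ℂ) (hu : ‖u‖ = 1) (S : Set (ℝ × ℝ)) (hS : IsPreconnected S)
    (hre : ∀ s ∈ S, 0 < (H s * u).re) (p q : ℝ × ℝ) (hp : p ∈ S) (hq : q ∈ S)
    (h1 : (H p * u).im ≤ 0) (h2 : 0 ≤ (H q * u).im)
    (h3 : (H p * u).im < 0 ∨ 0 < (H q * u).im) : θ p < θ q := by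
  have hform : ∀ s, H s * u = ((‖H s‖ : ℝ) : ℂ) * Complex.exp ((θ s + Complex.arg u : ℝ) * Complex.I) := by
    intro s
    have e1 : u = Complex.exp (Complex.arg u * Complex.I) := by
      have := Complex.norm_mul_exp_arg_mul_I u
      rw [hu] at this
      simpa using this.symm
    conv_lhs => rw [hH s, e1]
    rw [mul_assoc, ← Complex.exp_add]
    congr 2
    push_cast
    ring
  have hre' : ∀ s, (H s * u).re = ‖H s‖ * Real.cos (θ s + Complex.arg u) := by
    intro s
    rw [hform s, Complex.re_ofReal_mul, Complex.exp_ofReal_mul_I_re]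
  have him' : ∀ s, (H s * u).im = ‖H s‖ * Real.sin (θ s + Complex.arg u) := by
    intro s
    rw [hform s, Complex.im_ofReal_mul, Complex.exp_ofReal_mul_I_im]
  have hn : ∀ s, 0 < ‖H s‖ := fun s => norm_pos_iff.2 (h0 s)
  apply angle_lt θ hθ (Complex.arg u) S hS _ p q hp hq
  · rw [him' p] at h1 h3
    rw [him' q] at h2 h3
    have h1' : Real.sin (θ p + Complex.arg u) ≤ 0 := by
      by_contra hc
      push Not at hc
      have := mul_pos (hn p) hc
      linarith
    have h2' : 0 ≤ Real.sin (θ q + Complex.arg u) := by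
      by_contra hc
      push Not at hc
      have := mul_neg_of_pos_of_neg (hn q) hc
      linarith
    rcases h3 with h3 | h3
    · have : Real.sin (θ p + Complex.arg u) < 0 := by
        by_contra hc
        push Not at hc
        have := mul_nonneg (hn p).le hc
        linarith
      linarith
    · have : 0 < Real.sin (θ q + Complex.arg u) := by
        by_contra hc
        push Not at hc
        have := mul_nonpos_of_nonneg_of_nonpos (hn q).le hc
        linarith
      linarith
  · intro s hs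
    have := hre s hs
    rw [hre' s] at this
    exact (mul_pos_iff_of_pos_left (hn s)).1 this

/-- The primitive third root of unity. -/
noncomputable def w : ℂ := ⟨-1 / 2, Real.sqrt 3 / 2⟩

theorem w_re : w.re = -1 / 2 := rfl
theorem w_im : w.im = Real.sqrt 3 / 2 := rfl
theorem sq3 : Real.sqrt 3 * Real.sqrt 3 = 3 := Real.mul_self_sqrt (by norm_num)
theorem sq3pos : 0 < Real.sqrt 3 := Real.sqrt_pos.2 (by norm_num)

theorem w_sq : w * w = ⟨-1 / 2, -(Real.sqrt 3 / 2)⟩ := by
  apply Complex.ext
  · simp only [Complex.mul_re, w_re, w_im]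
    nlinarith [sq3]
  · simp only [Complex.mul_im, w_re, w_im]
    ring

theorem w_sum : 1 + w + w * w = 0 := by
  rw [w_sq]
  apply Complex.ext
  · simp [w_re]; norm_num
  · simp [w_im]

theorem w_cube : w * (w * w) = 1 := by
  have h := w_sum
  linear_combination (w - 1) * h

theorem w_norm : ‖w‖ = 1 := by
  have h := congrArg norm w_cube
  rw [norm_mul, norm_mul, norm_one] at h
  nlinarith [norm_nonneg w, sq_nonneg (‖w‖ - 1), sq_nonneg (‖w‖ + 1)]

theorem re_pos_of_norm_le {z : ℂ} (hz : ‖z‖ ≤ 1) (hne : 1 - z ≠ 0) : 0 < (1 - z).re := by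
  have h1 : z.re ≤ 1 := (Complex.re_le_norm z).trans hz
  rcases lt_or_eq_of_le h1 with h | h
  · simp; linarith
  · exfalso
    apply hne
    have h2 : z.re * z.re + z.im * z.im ≤ 1 := by
      have : Complex.normSq z ≤ 1 := by
        rw [Complex.normSq_eq_norm_sq]
        nlinarith [norm_nonneg z]
      rwa [Complex.normSq_apply] at this
    rw [h] at h2
    have h3 : z.im = 0 := by nlinarith [mul_self_nonneg z.im]
    apply Complex.ext
    · simp [h]
    · simp [h3]

/-- Crossing lemma: two paths in the closed unit disc with interlaced end points meet. -/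
theorem crossing (α β : ℝ → ℂ) (hα : Continuous α) (hβ : Continuous β)
    (hα1 : ∀ s, ‖α s‖ ≤ 1) (hβ1 : ∀ t, ‖β t‖ ≤ 1) (a0 : α 0 = 1) (a1 : α 1 = w)
    (b0 : β 0 = -(w * w)) (b1 : β 1 = -1) : ∃ s t, α s = β t := by
  by_contra hcon
  push Not at hcon
  set H : ℝ × ℝ → ℂ := fun p => α p.1 - β p.2 with hHdef
  have hHc : Continuous H := (hα.comp continuous_fst).sub (hβ.comp continuous_snd)
  have hH0 : ∀ p, H p ≠ 0 := fun p h => hcon p.1 p.2 (sub_eq_zero.1 h)
  obtain ⟨θ, hθ, hHθ⟩ := exists_lift H hHc hH0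
  have hs3 := sq3pos
  have h3 := sq3
  have hw := w_sum
  -- edge s = 0
  have e1 : θ (0, 0) < θ (0, 1) := by
    apply edge H θ hθ hHθ hH0 1 (by simp) ((fun y => ((0 : ℝ), y)) '' univ)
      (isPreconnected_univ.image _ (by fun_prop)) _ _ _ ⟨0, trivial, rfl⟩ ⟨1, trivial, rfl⟩
    · simp only [hHdef, a0, b0, mul_one, w_sq]; simp <;> linarith
    · simp only [hHdef, a0, b1, mul_one]; simp
    · left; simp only [hHdef, a0, b0, mul_one, w_sq]; simp <;> linarith
    · rintro _ ⟨y, _, rfl⟩
      have h4 := hH0 (0, y)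
      simp only [hHdef, a0, mul_one] at h4 ⊢
      exact re_pos_of_norm_le (hβ1 y) h4
  -- edge t = 1
  have e2 : θ (0, 1) < θ (1, 1) := by
    apply edge H θ hθ hHθ hH0 1 (by simp) ((fun y => (y, (1 : ℝ))) '' univ)
      (isPreconnected_univ.image _ (by fun_prop)) _ _ _ ⟨0, trivial, rfl⟩ ⟨1, trivial, rfl⟩
    · simp only [hHdef, a0, b1, mul_one]; simp
    · simp only [hHdef, a1, b1, mul_one]; simp [w_im] <;> linarith
    · right; simp only [hHdef, a1, b1, mul_one]; simp [w_im] <;> linarith
    · rintro _ ⟨y, _, rfl⟩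
      have h4 := hH0 (y, 1)
      simp only [hHdef, b1, mul_one] at h4 ⊢
      have h5 : α y - -1 = 1 - (-α y) := by ring
      rw [h5] at h4 ⊢
      exact re_pos_of_norm_le (by rw [norm_neg]; exact hα1 y) h4
  -- edge s = 1
  have e3 : θ (1, 1) < θ (1, 0) := by
    apply edge H θ hθ hHθ hH0 (w * w) (by rw [norm_mul, w_norm, mul_one])
      ((fun y => ((1 : ℝ), y)) '' univ)
      (isPreconnected_univ.image _ (by fun_prop)) _ _ _ ⟨1, trivial, rfl⟩ ⟨0, trivial, rfl⟩
    · have e : H (1, 1) * (w * w) = -w := by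
        simp only [hHdef, a1, b1]; linear_combination w_cube + hw
      rw [e]; simp [w_im] <;> linarith
    · have e : H (1, 0) * (w * w) = -(w * w) := by
        simp only [hHdef, a1, b0]; linear_combination (1 + w) * w_cube + hw
      rw [e, w_sq]; simp <;> linarith
    · left
      have e : H (1, 1) * (w * w) = -w := by
        simp only [hHdef, a1, b1]; linear_combination w_cube + hw
      rw [e]; simp [w_im] <;> linarith
    · rintro _ ⟨y, _, rfl⟩
      have h4 := hH0 (1, y)
      have e : H (1, y) * (w * w) = 1 - β y * (w * w) := by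
        simp only [hHdef, a1]; linear_combination w_cube
      rw [e]
      apply re_pos_of_norm_le
      · rw [norm_mul, norm_mul, w_norm, mul_one, mul_one]; exact hβ1 y
      · rw [← e]
        apply mul_ne_zero h4
        intro h5
        have h6 := w_cube
        rw [h5, mul_zero] at h6
        exact zero_ne_one h6
  -- edge t = 0
  have e4 : θ (1, 0) < θ (0, 0) := by
    apply edge H θ hθ hHθ hH0 w w_norm
      ((fun y => (y, (0 : ℝ))) '' univ)
      (isPreconnected_univ.image _ (by fun_prop)) _ _ _ ⟨1, trivial, rfl⟩ ⟨0, trivial, rfl⟩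
    · have e : H (1, 0) * w = -w := by
        simp only [hHdef, a1, b0]; linear_combination w_cube + hw
      rw [e]; simp [w_im] <;> linarith
    · have e : H (0, 0) * w = -(w * w) := by
        simp only [hHdef, a0, b0]; linear_combination w_cube + hw
      rw [e, w_sq]; simp <;> linarith
    · left
      have e : H (1, 0) * w = -w := by
        simp only [hHdef, a1, b0]; linear_combination w_cube + hw
      rw [e]; simp [w_im] <;> linarith
    · rintro _ ⟨y, _, rfl⟩
      have h4 := hH0 (y, 0)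
      have e : H (y, 0) * w = 1 - (-(α y * w)) := by
        simp only [hHdef, b0]; linear_combination w_cube
      rw [e]
      apply re_pos_of_norm_le
      · rw [norm_neg, norm_mul, w_norm, mul_one]; exact hα1 y
      · rw [← e]
        apply mul_ne_zero h4
        intro h5
        have h6 := w_cube
        rw [h5, zero_mul] at h6
        exact zero_ne_one h6
  linarith

end Pool.Agent.Helper590.Hex
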