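import Mathlib
import Pool.Agent.Helper590.Hex.Cross

/-!
Jordan curves with a three-fold affine symmetry.
-/

set_option autoImplicit false
open Set Filter Topology

namespace Pool.Agent.Helper590.Hex

theorem exists_angle_in (z : Circle) (t0 : ℝ) :
    ∃ t ∈ Ico t0 (t0 + 2 * Real.pi), Circle.exp t = z := by
  obtain ⟨m, hm, _⟩ := existsUnique_add_zsmul_mem_Ico Real.two_pi_pos (Complex.arg z) t0
  refine ⟨_, hm, ?_⟩
  have h := (Circle.periodic_exp.zsmul m) (Complex.arg z)
  rw [h]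
  exact Circle.exp_arg z

theorem exp_ne_of_mem {t t0 : ℝ} (h : t ∈ Ioo t0 (t0 + 2 * Real.pi)) :
    Circle.exp t ≠ Circle.exp t0 := by
  intro he
  rw [Circle.exp_eq_exp] at he
  obtain ⟨m, hm⟩ := he
  have hp := Real.pi_pos
  obtain ⟨h1, h2⟩ := h
  have h3 : 0 < (m : ℝ) * (2 * Real.pi) := by linarith
  have h4 : (m : ℝ) * (2 * Real.pi) < 1 * (2 * Real.pi) := by linarith
  have h5 : (0 : ℝ) < m := by
    by_contra hc
    push Not at hc
    have := mul_nonpos_of_nonpos_of_nonneg hc (by linarith : (0 : ℝ) ≤ 2 * Real.pi)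
    linarith
  have h6 : (m : ℝ) < 1 := lt_of_mul_lt_mul_right h4 (by linarith)
  have h7 : 0 < m := by exact_mod_cast h5
  have h8 : m < 1 := by exact_mod_cast h6
  omega

/-- A path between two points of the circle avoiding a third point. -/
theorem exists_path (z0 z1 z2 : Circle) (h1 : z1 ≠ z0) (h2 : z2 ≠ z0) :
    ∃ c : ℝ → Circle, Continuous c ∧ c 0 = z1 ∧ c 1 = z2 ∧ ∀ s, c s ≠ z0 := by
  obtain ⟨t0, ht0⟩ : ∃ t0 : ℝ, Circle.exp t0 = z0 := ⟨Complex.arg z0, Circle.exp_arg z0⟩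
  obtain ⟨t1, ht1, e1⟩ := exists_angle_in z1 t0
  obtain ⟨t2, ht2, e2⟩ := exists_angle_in z2 t0
  have ht1' : t1 ∈ Ioo t0 (t0 + 2 * Real.pi) := by
    refine ⟨lt_of_le_of_ne ht1.1 ?_, ht1.2⟩
    rintro rfl
    exact h1 (e1.symm.trans ht0)
  have ht2' : t2 ∈ Ioo t0 (t0 + 2 * Real.pi) := by
    refine ⟨lt_of_le_of_ne ht2.1 ?_, ht2.2⟩
    rintro rfl
    exact h2 (e2.symm.trans ht0)
  let cl : ℝ → ℝ := fun s => max 0 (min 1 s)
  have hcl0 : ∀ s, 0 ≤ cl s := fun s => le_max_left _ _
  have hcl1 : ∀ s, cl s ≤ 1 := fun s => max_le (by norm_num) (min_le_left _ _)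
  refine ⟨fun s => Circle.exp ((1 - cl s) * t1 + cl s * t2), ?_, ?_, ?_, ?_⟩
  · apply Circle.exp.continuous.comp
    fun_prop
  · show Circle.exp ((1 - cl 0) * t1 + cl 0 * t2) = z1
    have : cl 0 = 0 := by simp [cl]
    rw [this]; simp [e1]
  · show Circle.exp ((1 - cl 1) * t1 + cl 1 * t2) = z2
    have : cl 1 = 1 := by simp [cl]
    rw [this]; simp [e2]
  · intro s
    show Circle.exp ((1 - cl s) * t1 + cl s * t2) ≠ z0
    rw [← ht0]
    apply exp_ne_of_mem
    have hconv := (convex_Ioo t0 (t0 + 2 * Real.pi)) ht1' ht2'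
      (by linarith [hcl1 s] : 0 ≤ 1 - cl s) (hcl0 s) (by ring)
    simpa using hconv

/-- A Jordan curve invariant under the rotation of order three about the origin meets its
reflection in the origin outside the origin. -/
theorem three_fold (g : Circle → ℂ) (hg : Continuous g) (hinj : Function.Injective g)
    (hsym : ∀ z ∈ range g, w * z ∈ range g) :
    ∃ x : ℂ, x ≠ 0 ∧ x ∈ range g ∧ -x ∈ range g := by
  obtain ⟨z1, _, hz1⟩ := isCompact_univ.exists_isMaxOn (univ_nonempty) hg.norm.continuousOn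
  have hmax : ∀ z, ‖g z‖ ≤ ‖g z1‖ := fun z => hz1 (mem_univ z)
  have hp0 : g z1 ≠ 0 := by
    intro h0
    have h1 : ∀ z, g z = 0 := by
      intro z
      have := hmax z
      rw [h0, norm_zero] at this
      exact norm_le_zero_iff.1 this
    have h2 : (1 : Circle) = Circle.exp Real.pi := hinj (by rw [h1, h1])
    have h3 := congrArg (fun z : Circle => (z : ℂ)) h2
    simp only [Circle.coe_one, Circle.coe_exp, Complex.exp_pi_mul_I] at h3
    norm_num at h3
  set p : ℂ := g z1 with hp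
  have hw0 : w ≠ 0 := by
    intro h
    have := w_norm
    rw [h, norm_zero] at this
    exact zero_ne_one this
  obtain ⟨z2, hz2⟩ := hsym p ⟨z1, rfl⟩
  obtain ⟨z3, hz3⟩ := hsym (w * p) ⟨z2, hz2⟩
  -- the point over the origin, if any
  obtain ⟨z0, hz0⟩ : ∃ z0 : Circle, (∀ z, z ≠ z0 → g z ≠ 0) ∧ z1 ≠ z0 ∧ z2 ≠ z0 := by
    by_cases h : ∃ z, g z = 0
    · obtain ⟨z0, hz0⟩ := h
      refine ⟨z0, fun z hz h => hz (hinj (h.trans hz0.symm)), ?_, ?_⟩
      · rintro rfl
        exact hp0 hz0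
      · rintro rfl
        rw [hz2] at hz0
        exact (mul_ne_zero hw0 hp0) hz0
    · push Not at h
      have hab : Circle.exp 1 ≠ Circle.exp 0 :=
        exp_ne_of_mem ⟨by norm_num, by linarith [Real.pi_gt_three]⟩
      have hac : Circle.exp 2 ≠ Circle.exp 0 :=
        exp_ne_of_mem ⟨by norm_num, by linarith [Real.pi_gt_three]⟩
      have hbc : Circle.exp 2 ≠ Circle.exp 1 :=
        exp_ne_of_mem ⟨by norm_num, by linarith [Real.pi_gt_three]⟩
      have hex : ∃ z0 : Circle, z1 ≠ z0 ∧ z2 ≠ z0 := by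
        by_contra hcon
        push Not at hcon
        have ha := hcon (Circle.exp 0)
        have hb := hcon (Circle.exp 1)
        have hc := hcon (Circle.exp 2)
        by_cases ea : z1 = Circle.exp 0
        · have eb := hb (fun h => hab (h.symm.trans ea))
          have ec := hc (fun h => hac (h.symm.trans ea))
          exact hbc (ec.symm.trans eb)
        · have ea' := ha ea
          by_cases eb : z1 = Circle.exp 1
          · have ec := hc (fun h => hbc (h.symm.trans eb))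
            exact hac (ec.symm.trans ea')
          · have eb' := hb eb
            exact hab (eb'.symm.trans ea')
      obtain ⟨z0, hz0⟩ := hex
      exact ⟨z0, fun z _ => h z, hz0.1, hz0.2⟩
  obtain ⟨hz0a, h10, h20⟩ := hz0
  obtain ⟨c, hc, c0, c1, hcne⟩ := exists_path z0 z1 z2 h10 h20
  -- a path from z3 to z1
  obtain ⟨d, hd, d0, d1⟩ : ∃ d : ℝ → Circle, Continuous d ∧ d 0 = z3 ∧ d 1 = z1 := by
    obtain ⟨t3, ht3⟩ : ∃ t : ℝ, Circle.exp t = z3 := ⟨Complex.arg z3, Circle.exp_arg z3⟩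
    obtain ⟨t1, ht1⟩ : ∃ t : ℝ, Circle.exp t = z1 := ⟨Complex.arg z1, Circle.exp_arg z1⟩
    refine ⟨fun s => Circle.exp ((1 - s) * t3 + s * t1), ?_, ?_, ?_⟩
    · apply Circle.exp.continuous.comp
      fun_prop
    · simp [ht3]
    · simp [ht1]
  have hbound : ∀ z, ‖g z / p‖ ≤ 1 := by
    intro z
    rw [norm_div, div_le_one (norm_pos_iff.2 hp0)]
    exact hmax z
  obtain ⟨s, t, hst⟩ := crossing (fun s => g (c s) / p) (fun t => -(g (d t) / p))
    ((hg.comp hc).div_const p) ((hg.comp hd).div_const p).neg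
    (fun s => hbound _) (fun t => by rw [norm_neg]; exact hbound _)
    (by show g (c 0) / p = 1; rw [c0]; exact div_self hp0)
    (by show g (c 1) / p = w; rw [c1, hz2]; field_simp)
    (by show -(g (d 0) / p) = -(w * w); rw [d0, hz3]; field_simp)
    (by show -(g (d 1) / p) = -1; rw [d1, ← hp, div_self hp0])
  have h5 : g (c s) = -g (d t) := by
    have : g (c s) / p = -(g (d t) / p) := hst
    field_simp at this
    exact this
  refine ⟨g (c s), hz0a _ (hcne s), ⟨c s, rfl⟩, ⟨d t, ?_⟩⟩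
  rw [h5, neg_neg]

/-- The primitive sixth root of unity. -/
theorem zeta_eq : Complex.exp (2 * (Real.pi : ℂ) * Complex.I / 6) = -(w * w) := by
  have h1 : (2 * (Real.pi : ℂ) * Complex.I / 6) = ((Real.pi / 3 : ℝ) : ℂ) * Complex.I := by
    push_cast; ring
  rw [h1, w_sq]
  apply Complex.ext
  · rw [Complex.exp_ofReal_mul_I_re, Real.cos_pi_div_three]
    simp; norm_num
  · rw [Complex.exp_ofReal_mul_I_im, Real.sin_pi_div_three]
    simp

theorem w_eq : Complex.exp (2 * (Real.pi : ℂ) * Complex.I / 3) = w := by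
  have h1 : (2 * (Real.pi : ℂ) * Complex.I / 3)
      = 2 * (Real.pi : ℂ) * Complex.I / 6 + 2 * (Real.pi : ℂ) * Complex.I / 6 := by ring
  rw [h1, Complex.exp_add, zeta_eq]
  linear_combination w * w_cube

/-- The orbit hexagon. -/
theorem hexagon_of (g : Circle → ℂ) (hsym : ∀ z ∈ range g, w * z ∈ range g) (x : ℂ)
    (h1 : x ∈ range g) (h2 : -x ∈ range g) (k : ℕ) :
    Complex.exp (2 * (Real.pi : ℂ) * Complex.I * (k : ℂ) / 6) * x ∈ range g := by
  have key : ∀ k : ℕ, (-(w * w)) ^ k * x ∈ range g ∧ -((-(w * w)) ^ k * x) ∈ range g := by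
    intro k
    induction k with
    | zero => simpa using ⟨h1, h2⟩
    | succ k ih =>
      obtain ⟨i1, i2⟩ := ih
      constructor
      · have := hsym _ (hsym _ i2)
        convert this using 1
        rw [pow_succ]; ring
      · have := hsym _ (hsym _ i1)
        convert this using 1
        rw [pow_succ]; ring
  have e : Complex.exp (2 * (Real.pi : ℂ) * Complex.I * (k : ℂ) / 6) = (-(w * w)) ^ k := by
    rw [← zeta_eq, ← Complex.exp_nat_mul]
    congr 1
    ring
  rw [e]
  exact (key k).1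

/-- Complex multiplication as a real affine equivalence. -/
noncomputable def mulEquiv (x : ℂ) (hx : x ≠ 0) : AffineEquiv ℝ ℂ ℂ :=
  (DistribMulAction.toLinearEquiv ℝ ℂ (Units.mk0 x hx)).toAffineEquiv

theorem mulEquiv_apply (x : ℂ) (hx : x ≠ 0) (z : ℂ) : mulEquiv x hx z = x * z := rfl

/-- Jordan curves which are affine images of curves with a rotational symmetry of order three. -/
theorem main_three (f : Circle → ℂ) (hf : Continuous f) (hinj : Function.Injective f)
    (B : AffineEquiv ℝ ℂ ℂ)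
    (hsym : ∀ z ∈ range f, B.symm (Complex.exp (2 * (Real.pi : ℂ) * Complex.I / 3) * B z)
      ∈ range f) :
    ∃ A : AffineEquiv ℝ ℂ ℂ, ∀ k : Fin 6,
      A (Complex.exp (2 * (Real.pi : ℂ) * Complex.I * ((k : ℕ) : ℂ) / 6)) ∈ Set.range f := by
  have hB : Continuous B := B.toAffineMap.continuous_of_finiteDimensional
  set g : Circle → ℂ := fun z => B (f z) with hg
  have hgs : ∀ z ∈ range g, w * z ∈ range g := by
    rintro _ ⟨z, rfl⟩
    obtain ⟨y, hy⟩ := hsym (f z) ⟨z, rfl⟩
    refine ⟨y, ?_⟩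
    show B (f y) = w * B (f z)
    rw [hy, B.apply_symm_apply, w_eq]
  obtain ⟨x, hx0, hx1, hx2⟩ := three_fold g (hB.comp hf) (B.injective.comp hinj) hgs
  refine ⟨(mulEquiv x hx0).trans B.symm, ?_⟩
  intro k
  obtain ⟨y, hy⟩ := hexagon_of g hgs x hx1 hx2 k
  refine ⟨y, ?_⟩
  show f y = B.symm (mulEquiv x hx0 _)
  rw [mulEquiv_apply, mul_comm, ← hy]
  show f y = B.symm (B (f y))
  rw [B.symm_apply_apply]

end Pool.Agent.Helper590.Hex
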