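import Mathlib
import Pool.Agent.Helper590.Hex.Three

/-!
Centrally symmetric Jordan curves.
-/

set_option autoImplicit false
open Set Filter Topology

namespace Pool.Agent.Helper590.Hex

theorem exp_add_pi (t : ℝ) : Circle.exp (t + Real.pi) = - Circle.exp t := by
  apply Circle.ext
  rw [Circle.coe_neg, Circle.coe_exp, Circle.coe_exp]
  push_cast
  rw [add_mul, Complex.exp_add, Complex.exp_pi_mul_I]; ring

theorem const_of_exp {X : Type*} [TopologicalSpace X] [PreconnectedSpace X] {h : X → ℝ}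
    (hh : Continuous h) (he : ∀ x, Complex.exp (h x * Complex.I) = 1) (x y : X) : h x = h y := by
  have h1 : ∀ x, ∃ n : ℤ, h x / (2 * Real.pi) = n := by
    intro x
    obtain ⟨n, hn⟩ := Complex.exp_eq_one_iff.mp (he x)
    refine ⟨n, ?_⟩
    have h2 : (h x : ℂ) = n * (2 * Real.pi) := by
      have := mul_right_cancel₀ Complex.I_ne_zero (hn.trans (mul_assoc _ _ _).symm)
      exact this
    have h3 : h x = n * (2 * Real.pi) := by exact_mod_cast h2
    rw [h3]
    field_simp
  choose n hn using h1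
  have hc : Continuous n := by
    rw [Int.isClosedEmbedding_coe_real.continuous_iff]
    have : ((↑) : ℤ → ℝ) ∘ n = fun x => h x / (2 * Real.pi) := by
      funext x
      exact (hn x).symm
    rw [this]
    exact hh.div_const _
  have := PreconnectedSpace.constant (inferInstance : PreconnectedSpace X) hc (x := x) (y := y)
  have h3 : h x / (2 * Real.pi) = h y / (2 * Real.pi) := by rw [hn, hn, this]
  have hpi : (2 * Real.pi) ≠ 0 := by positivity
  field_simp at h3
  exact h3

/-- exponentials of two angles of the same number -/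
theorem exp_sub_eq {z z' e : ℂ} {a b : ℝ} (hz : z ≠ 0) (hn : ‖z'‖ = ‖z‖) (he : z' = e * z)
    (ha : z' = (‖z'‖ : ℂ) * Complex.exp (a * Complex.I))
    (hb : z = (‖z‖ : ℂ) * Complex.exp (b * Complex.I)) :
    Complex.exp (((a - b : ℝ) : ℂ) * Complex.I) = e := by
  have hn0 : (‖z‖ : ℂ) ≠ 0 := by exact_mod_cast norm_ne_zero_iff.mpr hz
  have h : Complex.exp (a * Complex.I) = e * Complex.exp (b * Complex.I) := by
    apply mul_left_cancel₀ hn0
    rw [hn] at ha
    rw [← ha, he]
    conv_lhs => rw [hb]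
    ring
  rw [Complex.ofReal_sub, sub_mul, Complex.exp_sub, h, mul_div_assoc,
    div_self (Complex.exp_ne_zero _), mul_one]

/-- For a curve with odd parametrisation and an outermost point `p` of a ray from the centre,
`p` is the sum of two points of the curve. -/
theorem central (g : Circle → ℂ) (hg : Continuous g) (hodd : ∀ z, g (-z) = - g z) (z1 : Circle)
    (hp0 : g z1 ≠ 0) (hout : ∀ t : ℝ, 1 < t → (t : ℂ) * g z1 ∉ range g) :
    ∃ r ∈ range g, g z1 - r ∈ range g := by
  by_contra hcon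
  push Not at hcon
  set p : ℂ := g z1 with hp
  obtain ⟨t1, ht1⟩ : ∃ t : ℝ, Circle.exp t = z1 := ⟨Complex.arg z1, Circle.exp_arg z1⟩
  set h : ℝ → ℂ := fun t => g (Circle.exp t) with hh
  have hhc : Continuous h := hg.comp Circle.exp.continuous
  have hπ : ∀ t, h (t + Real.pi) = - h t := by
    intro t
    show g (Circle.exp (t + Real.pi)) = - g (Circle.exp t)
    rw [exp_add_pi, hodd]
  have h1 : h t1 = p := by show g (Circle.exp t1) = p; rw [ht1]
  have h2π : ∀ t, h (t + 2 * Real.pi) = h t := by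
    intro t
    have e : t + 2 * Real.pi = (t + Real.pi) + Real.pi := by ring
    rw [e, hπ, hπ, neg_neg]
  set γ : ℝ → ℂ := fun s => p - h (t1 + Real.pi * min s 1) + ((max (s - 1) 0 : ℝ) : ℂ) * p
    with hγ
  have hγc : Continuous γ := by
    apply Continuous.add
    · apply Continuous.sub continuous_const
      apply hhc.comp
      fun_prop
    · apply Continuous.mul _ continuous_const
      apply Complex.continuous_ofReal.comp
      fun_prop
  have hγ0 : γ 0 = 0 := by
    have e1 : min (0 : ℝ) 1 = 0 := by norm_num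
    have e2 : max ((0 : ℝ) - 1) 0 = 0 := by norm_num
    simp only [hγ, e1, e2, mul_zero, add_zero, h1]
    simp
  have hγ1 : ∀ s, 1 ≤ s → γ s = ((s + 1 : ℝ) : ℂ) * p := by
    intro s hs
    have e1 : min s 1 = 1 := min_eq_right hs
    have e2 : max (s - 1) 0 = s - 1 := max_eq_left (by linarith)
    simp only [hγ, e1, e2, mul_one, hπ, h1]
    push_cast
    ring
  set F : ℝ × ℝ → ℂ := fun q => γ q.1 - h q.2 with hF
  have hFc : Continuous F := (hγc.comp continuous_fst).sub (hhc.comp continuous_snd)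
  have hF0 : ∀ q, F q ≠ 0 := by
    rintro ⟨s, t⟩ hzero
    have h3 : γ s = h t := sub_eq_zero.1 hzero
    rcases le_or_gt s 1 with hs | hs
    · have e1 : min s 1 = s := min_eq_left hs
      have e2 : max (s - 1) 0 = 0 := max_eq_right (by linarith)
      have h4 : γ s = p - h (t1 + Real.pi * s) := by
        simp only [hγ, e1, e2]; simp
      rw [h4] at h3
      exact hcon (h (t1 + Real.pi * s)) ⟨_, rfl⟩ (by rw [h3]; exact ⟨_, rfl⟩)
    · rw [hγ1 s hs.le] at h3
      exact hout (s + 1) (by linarith) (by rw [h3]; exact ⟨_, rfl⟩)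
  obtain ⟨θ, hθ, hFθ⟩ := exists_lift F hFc hF0
  -- full turns
  have hD : ∀ q : ℝ × ℝ, Complex.exp (((θ (q.1, q.2 + 2 * Real.pi) - θ q : ℝ) : ℂ) * Complex.I)
      = 1 := by
    intro q
    have e : F (q.1, q.2 + 2 * Real.pi) = F q := by
      show γ q.1 - h (q.2 + 2 * Real.pi) = γ q.1 - h q.2
      rw [h2π]
    exact exp_sub_eq (hF0 q) (by rw [e]) (by rw [e, one_mul]) (hFθ _) (hFθ q)
  have hDc : Continuous (fun q : ℝ × ℝ => θ (q.1, q.2 + 2 * Real.pi) - θ q) := by fun_prop
  have hDconst : ∀ q q' : ℝ × ℝ, θ (q.1, q.2 + 2 * Real.pi) - θ q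
      = θ (q'.1, q'.2 + 2 * Real.pi) - θ q' := fun q q' => const_of_exp hDc hD q q'
  -- half turns at `s = 0`
  have hE : ∀ t : ℝ, Complex.exp (((θ (0, t + Real.pi) - θ (0, t) : ℝ) : ℂ) * Complex.I)
      = -1 := by
    intro t
    have e : F (0, t + Real.pi) = -1 * F (0, t) := by
      show γ 0 - h (t + Real.pi) = -1 * (γ 0 - h t)
      rw [hγ0, hπ]; ring
    exact exp_sub_eq (hF0 (0, t)) (by rw [e, norm_mul, norm_neg, norm_one, one_mul]) e
      (hFθ _) (hFθ _)
  have hE' : ∀ t : ℝ, Complex.exp (((θ (0, t + Real.pi) - θ (0, t) - Real.pi : ℝ) : ℂ)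
      * Complex.I) = 1 := by
    intro t
    have h4 := hE t
    rw [Complex.ofReal_sub _ Real.pi, sub_mul, Complex.exp_sub, h4, Complex.exp_pi_mul_I]
    norm_num
  have hEc : Continuous (fun t : ℝ => θ (0, t + Real.pi) - θ (0, t) - Real.pi) := by fun_prop
  have hEconst := const_of_exp hEc hE' 0 Real.pi
  obtain ⟨n, hn⟩ := Complex.exp_eq_one_iff.mp (hE' 0)
  have hn' : θ (0, 0 + Real.pi) - θ (0, 0) - Real.pi = n * (2 * Real.pi) := by
    have h2 : ((θ (0, 0 + Real.pi) - θ (0, 0) - Real.pi : ℝ) : ℂ) = n * (2 * Real.pi) :=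
      mul_right_cancel₀ Complex.I_ne_zero (hn.trans (mul_assoc _ _ _).symm)
    exact_mod_cast h2
  -- far away
  obtain ⟨zM, _, hzM⟩ := isCompact_univ.exists_isMaxOn (univ_nonempty) hg.norm.continuousOn
  have hmax : ∀ z, ‖g z‖ ≤ ‖g zM‖ := fun z => hzM (mem_univ z)
  have hpn : 0 < ‖p‖ := norm_pos_iff.2 hp0
  set S : ℝ := max 1 (‖g zM‖ / ‖p‖) with hS
  have hS1 : 1 ≤ S := le_max_left _ _
  have hS2 : ‖g zM‖ < (S + 1) * ‖p‖ := by
    have : ‖g zM‖ / ‖p‖ ≤ S := le_max_right _ _
    rw [div_le_iff₀ hpn] at this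
    nlinarith
  set u : ℂ := (starRingEnd ℂ) p / (‖p‖ : ℂ) with hu
  have hpc : (‖p‖ : ℂ) ≠ 0 := by exact_mod_cast hpn.ne'
  have hun : ‖u‖ = 1 := by
    rw [hu, norm_div, RCLike.norm_conj, Complex.norm_real, norm_norm]
    exact div_self hpn.ne'
  have hpu : p * u = (‖p‖ : ℂ) := by
    rw [hu, mul_div_assoc', Complex.mul_conj, Complex.normSq_eq_norm_sq]
    push_cast
    field_simp
  have hcos : ∀ t : ℝ, 0 < Real.cos (θ (S, t) + Complex.arg u) := by
    intro t
    have hre : 0 < (F (S, t) * u).re := by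
      have e1 : F (S, t) * u = (((S + 1) * ‖p‖ : ℝ) : ℂ) - h t * u := by
        show (γ S - h t) * u = _
        rw [hγ1 S hS1, sub_mul, mul_assoc, hpu]
        push_cast; ring
      rw [e1, Complex.sub_re, Complex.ofReal_re]
      have e2 : (h t * u).re ≤ ‖g zM‖ := by
        calc (h t * u).re ≤ ‖h t * u‖ := Complex.re_le_norm _
          _ = ‖h t‖ := by rw [norm_mul, hun, mul_one]
          _ ≤ ‖g zM‖ := hmax _
      linarith
    have hform : F (S, t) * u = ((‖F (S, t)‖ : ℝ) : ℂ)
        * Complex.exp ((θ (S, t) + Complex.arg u : ℝ) * Complex.I) := by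
      have e1 : u = Complex.exp (Complex.arg u * Complex.I) := by
        have := Complex.norm_mul_exp_arg_mul_I u
        rw [hun] at this
        simpa using this.symm
      conv_lhs => rw [hFθ (S, t), e1]
      rw [mul_assoc, ← Complex.exp_add]
      congr 2
      push_cast
      ring
    rw [hform, Complex.re_ofReal_mul, Complex.exp_ofReal_mul_I_re] at hre
    exact (mul_pos_iff_of_pos_left (norm_pos_iff.2 (hF0 _))).1 hre
  -- contradiction
  have hpi := Real.pi_pos
  have hDS := hDconst (S, 0) (0, 0)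
  simp only [] at hDS
  have hDval : θ (S, 0 + 2 * Real.pi) - θ (S, 0) = 2 * (2 * n + 1) * Real.pi := by
    have e1 : (0 : ℝ) + 2 * Real.pi = Real.pi + Real.pi := by ring
    have e2 : (0 : ℝ) + Real.pi = Real.pi := by ring
    rw [hDS]
    rw [e2] at hEconst hn'
    rw [e1]
    nlinarith
  have himg : (range fun t : ℝ => θ (S, t)).OrdConnected :=
    (isPreconnected_range (by fun_prop)).ordConnected
  have hm0 : θ (S, 0) ∈ range fun t : ℝ => θ (S, t) := ⟨0, rfl⟩
  have hm1 : θ (S, 0 + 2 * Real.pi) ∈ range fun t : ℝ => θ (S, t) := ⟨_, rfl⟩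
  have hflip : ∀ v : ℝ, v = θ (S, 0) + Real.pi ∨ v = θ (S, 0) - Real.pi →
      v ∉ range fun t : ℝ => θ (S, t) := by
    rintro v hv ⟨t, ht⟩
    have h5 := hcos t
    have h6 := hcos 0
    have ht' : θ (S, t) = v := ht
    rw [ht'] at h5
    rcases hv with rfl | rfl
    · rw [show θ (S, 0) + Real.pi + Complex.arg u = (θ (S, 0) + Complex.arg u) + Real.pi by ring,
        Real.cos_add_pi] at h5
      linarith
    · rw [show θ (S, 0) - Real.pi + Complex.arg u = (θ (S, 0) + Complex.arg u) - Real.pi by ring,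
        Real.cos_sub_pi] at h5
      linarith
  rcases le_or_gt 0 n with h7 | h7
  · have h8 : (0 : ℝ) ≤ n := by exact_mod_cast h7
    apply hflip (θ (S, 0) + Real.pi) (Or.inl rfl)
    apply himg.out hm0 hm1
    constructor
    · linarith
    · nlinarith
  · have h8 : (n : ℝ) ≤ -1 := by exact_mod_cast (by omega : n ≤ -1)
    apply hflip (θ (S, 0) - Real.pi) (Or.inr rfl)
    apply himg.out hm1 hm0
    constructor
    · nlinarith
    · linarith

/-- The real linear map with `1 ↦ r` and `exp (π i / 3) ↦ p`. -/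
noncomputable def lin (r p : ℂ) : ℂ →ₗ[ℝ] ℂ :=
  Complex.reLm.smulRight r
    + Complex.imLm.smulRight ((2 / Real.sqrt 3 : ℝ) • p - (1 / Real.sqrt 3 : ℝ) • r)

theorem lin_one (r p : ℂ) : lin r p 1 = r := by
  simp [lin]

theorem lin_zeta (r p : ℂ) : lin r p (-(w * w)) = p := by
  have h3 : (Real.sqrt 3 : ℂ) ≠ 0 := by exact_mod_cast sq3pos.ne'
  rw [w_sq]
  simp only [lin, LinearMap.add_apply, LinearMap.smulRight_apply, Complex.reLm_coe,
    Complex.imLm_coe, Complex.neg_re, Complex.neg_im]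
  simp only [Complex.real_smul]
  push_cast
  field_simp
  ring

theorem lin_inj (r p : ℂ) (hp : p ≠ 0) (h : ∀ t : ℝ, r ≠ (t : ℂ) * p) :
    Function.Injective (lin r p) := by
  rw [← LinearMap.ker_eq_bot, LinearMap.ker_eq_bot']
  intro z hz
  have hs := sq3pos
  have h3 : (Real.sqrt 3 : ℂ) ≠ 0 := by exact_mod_cast hs.ne'
  simp only [lin, LinearMap.add_apply, LinearMap.smulRight_apply, Complex.reLm_coe,
    Complex.imLm_coe, Complex.real_smul] at hz
  set A : ℝ := z.re - z.im / Real.sqrt 3 with hA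
  set Bc : ℝ := 2 * z.im / Real.sqrt 3 with hBc
  have e1 : (A : ℂ) * r + (Bc : ℂ) * p = 0 := by
    rw [← hz, hA, hBc]
    push_cast
    field_simp
    ring
  have hA0 : A = 0 := by
    by_contra hne
    have hne' : (A : ℂ) ≠ 0 := by exact_mod_cast hne
    apply h (-(Bc / A))
    push_cast
    field_simp
    linear_combination e1
  rw [hA0] at e1
  have hB0 : Bc = 0 := by
    simp only [Complex.ofReal_zero, zero_mul, zero_add, mul_eq_zero] at e1
    rcases e1 with h4 | h4
    · exact_mod_cast h4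
    · exact absurd h4 hp
  have him : z.im = 0 := by
    rw [hBc] at hB0
    have := (div_eq_zero_iff.1 hB0).resolve_right hs.ne'
    linarith
  have hre : z.re = 0 := by
    rw [hA, him] at hA0
    simpa using hA0
  exact Complex.ext hre him

/-- Centrally symmetric curves: hexagon with a prescribed vertex. -/
theorem main_central (f : Circle → ℂ) (hf : Continuous f) (hinj : Function.Injective f) (c : ℂ)
    (hodd : ∀ z, f (-z) = 2 * c - f z) (z1 : Circle)
    (hout : ∀ t : ℝ, 1 < t → c + (t : ℂ) * (f z1 - c) ∉ range f)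
    (hmid : ∀ t : ℝ, 0 < t → t < 1 →
      ¬ (c + (t : ℂ) * (f z1 - c) ∈ range f ∧ c + ((1 - t : ℝ) : ℂ) * (f z1 - c) ∈ range f)) :
    ∃ A : AffineEquiv ℝ ℂ ℂ, (∀ k : Fin 6,
      A (Complex.exp (2 * (Real.pi : ℂ) * Complex.I * ((k : ℕ) : ℂ) / 6)) ∈ Set.range f) ∧
      A (Complex.exp (2 * (Real.pi : ℂ) * Complex.I / 6)) = f z1 := by
  set g : Circle → ℂ := fun z => f z - c with hgdef
  have hgc : Continuous g := hf.sub continuous_const
  have hginj : Function.Injective g := fun x y hxy => hinj (sub_left_injective hxy)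
  have hgodd : ∀ z, g (-z) = - g z := by
    intro z
    show f (-z) - c = -(f z - c)
    rw [hodd]; ring
  have hmem : ∀ x : ℂ, x ∈ range g ↔ c + x ∈ range f := by
    intro x
    constructor
    · rintro ⟨y, rfl⟩
      exact ⟨y, by show f y = c + (f y - c); ring⟩
    · rintro ⟨y, hy⟩
      exact ⟨y, by show f y - c = x; rw [hy]; ring⟩
  have hzero : (0 : ℂ) ∉ range g := by
    rintro ⟨z, hz⟩
    have h1 : g (-z) = g z := by rw [hgodd, hz, neg_zero]
    have h2 := hginj h1
    have h3 := congrArg (fun z : Circle => (z : ℂ)) h2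
    simp only [Circle.coe_neg] at h3
    have h4 : (z : ℂ) = 0 := by
      have : (2 : ℂ) * (z : ℂ) = 0 := by linear_combination -h3
      simpa using this
    exact Circle.coe_ne_zero z h4
  have hneg : ∀ x ∈ range g, -x ∈ range g := by
    rintro _ ⟨z, rfl⟩
    exact ⟨-z, hgodd z⟩
  have hp0 : g z1 ≠ 0 := fun h => hzero ⟨z1, h⟩
  have hout' : ∀ t : ℝ, 1 < t → (t : ℂ) * g z1 ∉ range g := by
    intro t ht hc
    exact hout t ht ((hmem _).1 hc)
  obtain ⟨r, hr, hpr⟩ := central g hgc hgodd z1 hp0 hout'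
  set p : ℂ := g z1 with hp
  have hpm : p ∈ range g := ⟨z1, rfl⟩
  have hind : ∀ t : ℝ, r ≠ (t : ℂ) * p := by
    intro t ht
    rcases lt_trichotomy t 0 with h | h | h
    · apply hout' (1 - t) (by linarith)
      have : ((1 - t : ℝ) : ℂ) * g z1 = p - r := by rw [ht]; push_cast; ring
      rw [this]; exact hpr
    · apply hzero
      rw [ht, h] at hr
      simpa using hr
    · rcases lt_trichotomy t 1 with h' | h' | h'
      · apply hmid t h h'
        constructor
        · rw [← hmem]
          show (t : ℂ) * p ∈ range g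
          rw [← ht]; exact hr
        · rw [← hmem]
          have : ((1 - t : ℝ) : ℂ) * (f z1 - c) = p - r := by
            rw [ht]; push_cast; show (1 - (t : ℂ)) * p = p - t * p; ring
          rw [this]; exact hpr
      · apply hzero
        rw [ht, h'] at hpr
        simpa using hpr
      · apply hout' t h'
        rw [← ht]; exact hr
  let L : ℂ ≃ₗ[ℝ] ℂ := LinearEquiv.ofInjectiveEndo (lin r p) (lin_inj r p hp0 hind)
  have hL : ∀ z, L z = lin r p z := fun z => rfl
  have hζ : ∀ k : ℕ, Complex.exp (2 * (Real.pi : ℂ) * Complex.I * (k : ℂ) / 6)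
      = (-(w * w)) ^ k := by
    intro k
    rw [← zeta_eq, ← Complex.exp_nat_mul]
    congr 1
    ring
  have hζ2 : (-(w * w)) ^ 2 = -(w * w) - 1 := by
    linear_combination w * w_cube + w_sum
  have key : ∀ k : ℕ, (lin r p ((-(w * w)) ^ k) ∈ range g)
      ∧ (lin r p ((-(w * w)) ^ (k + 1)) ∈ range g)
      ∧ (lin r p ((-(w * w)) ^ (k + 2)) ∈ range g) := by
    intro k
    induction k with
    | zero =>
      refine ⟨?_, ?_, ?_⟩
      · rw [pow_zero, lin_one]; exact hr
      · rw [zero_add, pow_one, lin_zeta]; exact hpm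
      · rw [zero_add, hζ2, map_sub, lin_zeta, lin_one]; exact hpr
    | succ k ih =>
      obtain ⟨i1, i2, i3⟩ := ih
      refine ⟨i2, by rw [show k + 1 + 1 = k + 2 by ring]; exact i3, ?_⟩
      have e : (-(w * w)) ^ (k + 1 + 2) = -((-(w * w)) ^ k) := by
        have : (-(w * w)) ^ 3 = -1 := by
          linear_combination (-(w * (w * w)) - 1) * w_cube
        rw [show k + 1 + 2 = k + 3 by ring, pow_add, this]; ring
      rw [e, map_neg]
      exact hneg _ i1
  refine ⟨L.toAffineEquiv.trans (AffineEquiv.constVAdd ℝ ℂ c), ?_, ?_⟩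
  · intro k
    have h1 := (key (k : ℕ)).1
    rw [hmem] at h1
    rw [hζ]
    exact h1
  · have h1 := hζ 1
    rw [Nat.cast_one, mul_one, pow_one] at h1
    rw [h1]
    show c + lin r p (-(w * w)) = f z1
    rw [lin_zeta]
    show c + (f z1 - c) = f z1
    ring

end Pool.Agent.Helper590.Hex
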