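import Mathlib
import Pool.Agent.Helper590.Hex.Central

/-!
Every centrally symmetric Jordan curve inscribes an affinely regular hexagon.
-/

set_option autoImplicit false
open Set Filter Topology

namespace Pool.Agent.Helper590.Hex

/-- A separation lemma for the plane (unicoherence): two disjoint closed sets whose union contains
the frontier of `V`. -/
theorem janis (V Z1 Z2 K1 K2 : Set (ℝ × ℝ)) (h1c : IsClosed Z1) (h2c : IsClosed Z2)
    (hd : Disjoint Z1 Z2) (hV : frontier V ⊆ Z1 ∪ Z2) (hK1 : IsPreconnected K1)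
    (hK2 : IsPreconnected K2) (hKZ1 : Disjoint K1 Z1) (hKZ2 : Disjoint K2 Z2)
    (a b : ℝ × ℝ) (ha1 : a ∈ K1) (ha2 : a ∈ K2) (hb1 : b ∈ K1) (hb2 : b ∈ K2)
    (ha : a ∉ V) (hb : b ∈ V) : False := by
  classical
  -- `φ = 1` on `Z1`, `φ = 0` on `Z2`
  obtain ⟨φ, hφ0, hφ1, _⟩ := exists_continuous_zero_one_of_isClosed h2c h1c hd.symm
  have hφc : Continuous (fun z => φ z) := φ.continuous
  set e : ℝ × ℝ → ℂ := fun z => Complex.exp (((2 * Real.pi * φ z : ℝ) : ℂ) * Complex.I) with he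
  have hec : Continuous e := by
    apply Complex.continuous_exp.comp
    apply Continuous.mul _ continuous_const
    apply Complex.continuous_ofReal.comp
    exact continuous_const.mul hφc
  set G : ℝ × ℝ → ℂ := V.piecewise e (fun _ => 1) with hG
  have hGc : Continuous G := by
    apply Continuous.piecewise _ hec continuous_const
    intro z hz
    rcases hV hz with h | h
    · have : φ z = 1 := hφ1 h
      simp only [he, this]
      have e1 : ((2 * Real.pi * 1 : ℝ) : ℂ) * Complex.I = 2 * Real.pi * Complex.I := by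
        push_cast; ring
      rw [e1, Complex.exp_two_pi_mul_I]
    · have : φ z = 0 := hφ0 h
      simp only [he, this]
      simp
  have hGn : ∀ z, ‖G z‖ = 1 := by
    intro z
    by_cases hz : z ∈ V
    · rw [hG, Set.piecewise_eq_of_mem _ _ _ hz]
      exact Complex.norm_exp_ofReal_mul_I _
    · rw [hG, Set.piecewise_eq_of_notMem _ _ _ hz]
      exact norm_one
  have hG0 : ∀ z, G z ≠ 0 := by
    intro z h
    have := hGn z
    rw [h, norm_zero] at this
    exact zero_ne_one this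
  obtain ⟨θ, hθ, hGθ⟩ := exists_lift G hGc hG0
  have hGθ' : ∀ z, G z = Complex.exp (θ z * Complex.I) := by
    intro z
    have := hGθ z
    rw [hGn z] at this
    simpa using this
  -- the two integer valued functions
  have hconst : ∀ (c : ℝ) (hc : Complex.exp (((2 * Real.pi * c : ℝ) : ℂ) * Complex.I) = 1)
      (K : Set (ℝ × ℝ)) (hK : IsPreconnected K)
      (hcont : ContinuousOn (V.piecewise (fun z => φ z + c) (fun _ => (0 : ℝ))) K)
      (x y : ℝ × ℝ) (hx : x ∈ K) (hy : y ∈ K),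
      θ x - 2 * Real.pi * V.piecewise (fun z => φ z + c) (fun _ => (0 : ℝ)) x
        = θ y - 2 * Real.pi * V.piecewise (fun z => φ z + c) (fun _ => (0 : ℝ)) y := by
    intro c hc K hK hcont x y hx hy
    have : PreconnectedSpace K := isPreconnected_iff_preconnectedSpace.1 hK
    have hcont' : Continuous (fun z : K => θ z
        - 2 * Real.pi * V.piecewise (fun z => φ z + c) (fun _ => (0 : ℝ)) z) := by
      apply Continuous.sub (hθ.comp continuous_subtype_val)
      apply continuous_const.mul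
      exact continuousOn_iff_continuous_restrict.1 hcont
    have hexp : ∀ z : K, Complex.exp (((θ z
        - 2 * Real.pi * V.piecewise (fun z => φ z + c) (fun _ => (0 : ℝ)) z : ℝ) : ℂ)
          * Complex.I) = 1 := by
      intro z
      rw [Complex.ofReal_sub, sub_mul, Complex.exp_sub, ← hGθ']
      by_cases hz : (z : ℝ × ℝ) ∈ V
      · rw [hG, Set.piecewise_eq_of_mem _ _ _ hz, Set.piecewise_eq_of_mem _ _ _ hz]
        have e1 : ((2 * Real.pi * (φ z + c) : ℝ) : ℂ) * Complex.I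
            = ((2 * Real.pi * φ z : ℝ) : ℂ) * Complex.I
              + ((2 * Real.pi * c : ℝ) : ℂ) * Complex.I := by
          push_cast; ring
        rw [e1, Complex.exp_add, hc, mul_one]
        exact div_self (Complex.exp_ne_zero _)
      · rw [hG, Set.piecewise_eq_of_notMem _ _ _ hz, Set.piecewise_eq_of_notMem _ _ _ hz]
        simp
    exact const_of_exp hcont' hexp ⟨x, hx⟩ ⟨y, hy⟩
  have hc0 : Complex.exp (((2 * Real.pi * (0 : ℝ) : ℝ) : ℂ) * Complex.I) = 1 := by simp
  have hc1 : Complex.exp (((2 * Real.pi * (-1 : ℝ) : ℝ) : ℂ) * Complex.I) = 1 := by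
    have e1 : ((2 * Real.pi * (-1 : ℝ) : ℝ) : ℂ) * Complex.I = -(2 * Real.pi * Complex.I) := by
      push_cast; ring
    rw [e1, Complex.exp_neg, Complex.exp_two_pi_mul_I, inv_one]
  have hcont1 : ContinuousOn (V.piecewise (fun z => φ z + 0) (fun _ => (0 : ℝ))) K1 := by
    apply ContinuousOn.piecewise
    · rintro z ⟨hz1, hz2⟩
      rcases hV hz2 with h | h
      · exact absurd h (Set.disjoint_left.1 hKZ1 hz1)
      · have : φ z = 0 := hφ0 h
        simp [this]
    · exact (hφc.add continuous_const).continuousOn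
    · exact continuousOn_const
  have hcont2 : ContinuousOn (V.piecewise (fun z => φ z + (-1)) (fun _ => (0 : ℝ))) K2 := by
    apply ContinuousOn.piecewise
    · rintro z ⟨hz1, hz2⟩
      rcases hV hz2 with h | h
      · have : φ z = 1 := hφ1 h
        simp [this]
      · exact absurd h (Set.disjoint_left.1 hKZ2 hz1)
    · exact (hφc.add continuous_const).continuousOn
    · exact continuousOn_const
  have r1 := hconst 0 hc0 K1 hK1 hcont1 a b ha1 hb1
  have r2 := hconst (-1) hc1 K2 hK2 hcont2 a b ha2 hb2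
  rw [Set.piecewise_eq_of_notMem _ _ _ ha, Set.piecewise_eq_of_mem _ _ _ hb] at r1 r2
  have hpi := Real.pi_pos
  nlinarith

/-- The origin and `2 p`, `p` a farthest point, are not joined by a path off the curve. -/
theorem no_path (g : Circle → ℂ) (hg : Continuous g) (hodd : ∀ z, g (-z) = - g z) (z1 : Circle)
    (hp0 : g z1 ≠ 0) (hmax : ∀ z, ‖g z‖ ≤ ‖g z1‖) (γ : ℝ → ℂ) (hγc : Continuous γ)
    (hγ0 : γ 0 = 0) (hγ1 : γ 1 = 2 * g z1) (hav : ∀ s, γ s ∉ range g) : False := by
  set p : ℂ := g z1 with hp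
  set h : ℝ → ℂ := fun t => g (Circle.exp t) with hh
  have hhc : Continuous h := hg.comp Circle.exp.continuous
  have hπ : ∀ t, h (t + Real.pi) = - h t := by
    intro t
    show g (Circle.exp (t + Real.pi)) = - g (Circle.exp t)
    rw [exp_add_pi, hodd]
  have h2π : ∀ t, h (t + 2 * Real.pi) = h t := by
    intro t
    have e : t + 2 * Real.pi = (t + Real.pi) + Real.pi := by ring
    rw [e, hπ, hπ, neg_neg]
  set F : ℝ × ℝ → ℂ := fun q => γ q.1 - h q.2 with hF
  have hFc : Continuous F := (hγc.comp continuous_fst).sub (hhc.comp continuous_snd)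
  have hF0 : ∀ q, F q ≠ 0 := by
    rintro ⟨s, t⟩ hzero
    have h3 : γ s = h t := sub_eq_zero.1 hzero
    exact hav s (by rw [h3]; exact ⟨_, rfl⟩)
  obtain ⟨θ, hθ, hFθ⟩ := exists_lift F hFc hF0
  have hD : ∀ q : ℝ × ℝ, Complex.exp (((θ (q.1, q.2 + 2 * Real.pi) - θ q : ℝ) : ℂ) * Complex.I)
      = 1 := by
    intro q
    have e : F (q.1, q.2 + 2 * Real.pi) = F q := by
      show γ q.1 - h (q.2 + 2 * Real.pi) = γ q.1 - h q.2
      rw [h2π]
    exact exp_sub_eq (hF0 q) (by rw [e]) (by rw [e, one_mul]) (hFθ _) (hFθ q)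
  have hDc : Continuous (fun q : ℝ × ℝ => θ (q.1, q.2 + 2 * Real.pi) - θ q) := by fun_prop
  have hDconst : ∀ q q' : ℝ × ℝ, θ (q.1, q.2 + 2 * Real.pi) - θ q
      = θ (q'.1, q'.2 + 2 * Real.pi) - θ q' := fun q q' => const_of_exp hDc hD q q'
  have hE : ∀ t : ℝ, Complex.exp (((θ (0, t + Real.pi) - θ (0, t) : ℝ) : ℂ) * Complex.I)
      = -1 := by
    intro t
    have e : F (0, t + Real.pi) = -1 * F (0, t) := by
      show γ 0 - h (t + Real.pi) = -1 * (γ 0 - h t)
      rw [hγ0, hπ]; ring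
    exact exp_sub_eq (hF0 (0, t)) (by rw [e, norm_mul, norm_neg, norm_one, one_mul]) e
      (hFθ _) (hFθ _)
  have hE' : ∀ t : ℝ, Complex.exp (((θ (0, t + Real.pi) - θ (0, t) - Real.pi : ℝ) : ℂ)
      * Complex.I) = 1 := by
    intro t
    have h4 := hE t
    rw [Complex.ofReal_sub _ Real.pi, sub_mul, Complex.exp_sub, h4, Complex.exp_pi_mul_I]
    norm_num
  have hEc : Continuous (fun t : ℝ => θ (0, t + Real.pi) - θ (0, t) - Real.pi) := by fun_prop
  have hEconst := const_of_exp hEc hE' 0 Real.pi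
  obtain ⟨n, hn⟩ := Complex.exp_eq_one_iff.mp (hE' 0)
  have hn' : θ (0, 0 + Real.pi) - θ (0, 0) - Real.pi = n * (2 * Real.pi) := by
    have h2 : ((θ (0, 0 + Real.pi) - θ (0, 0) - Real.pi : ℝ) : ℂ) = n * (2 * Real.pi) :=
      mul_right_cancel₀ Complex.I_ne_zero (hn.trans (mul_assoc _ _ _).symm)
    exact_mod_cast h2
  have hpn : 0 < ‖p‖ := norm_pos_iff.2 hp0
  set u : ℂ := (starRingEnd ℂ) p / (‖p‖ : ℂ) with hu
  have hpc : (‖p‖ : ℂ) ≠ 0 := by exact_mod_cast hpn.ne'
  have hun : ‖u‖ = 1 := by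
    rw [hu, norm_div, RCLike.norm_conj, Complex.norm_real, norm_norm]
    exact div_self hpn.ne'
  have hpu : p * u = (‖p‖ : ℂ) := by
    rw [hu, mul_div_assoc', Complex.mul_conj, Complex.normSq_eq_norm_sq]
    push_cast
    field_simp
  have hcos : ∀ t : ℝ, 0 < Real.cos (θ (1, t) + Complex.arg u) := by
    intro t
    have hre : 0 < (F (1, t) * u).re := by
      have e1 : F (1, t) * u = ((2 * ‖p‖ : ℝ) : ℂ) - h t * u := by
        show (γ 1 - h t) * u = _
        rw [hγ1, sub_mul, mul_assoc, hpu]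
        push_cast; ring
      rw [e1, Complex.sub_re, Complex.ofReal_re]
      have e2 : (h t * u).re ≤ ‖p‖ := by
        calc (h t * u).re ≤ ‖h t * u‖ := Complex.re_le_norm _
          _ = ‖h t‖ := by rw [norm_mul, hun, mul_one]
          _ ≤ ‖p‖ := hmax _
      linarith
    have hform : F (1, t) * u = ((‖F (1, t)‖ : ℝ) : ℂ)
        * Complex.exp ((θ (1, t) + Complex.arg u : ℝ) * Complex.I) := by
      have e1 : u = Complex.exp (Complex.arg u * Complex.I) := by
        have := Complex.norm_mul_exp_arg_mul_I u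
        rw [hun] at this
        simpa using this.symm
      conv_lhs => rw [hFθ (1, t), e1]
      rw [mul_assoc, ← Complex.exp_add]
      congr 2
      push_cast
      ring
    rw [hform, Complex.re_ofReal_mul, Complex.exp_ofReal_mul_I_re] at hre
    exact (mul_pos_iff_of_pos_left (norm_pos_iff.2 (hF0 _))).1 hre
  have hpi := Real.pi_pos
  have hDS := hDconst (1, 0) (0, 0)
  simp only [] at hDS
  have hDval : θ (1, 0 + 2 * Real.pi) - θ (1, 0) = 2 * (2 * n + 1) * Real.pi := by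
    have e1 : (0 : ℝ) + 2 * Real.pi = Real.pi + Real.pi := by ring
    have e2 : (0 : ℝ) + Real.pi = Real.pi := by ring
    rw [hDS]
    rw [e2] at hEconst hn'
    rw [e1]
    nlinarith
  have himg : (range fun t : ℝ => θ (1, t)).OrdConnected :=
    (isPreconnected_range (by fun_prop)).ordConnected
  have hm0 : θ (1, 0) ∈ range fun t : ℝ => θ (1, t) := ⟨0, rfl⟩
  have hm1 : θ (1, 0 + 2 * Real.pi) ∈ range fun t : ℝ => θ (1, t) := ⟨_, rfl⟩
  have hflip : ∀ v : ℝ, v = θ (1, 0) + Real.pi ∨ v = θ (1, 0) - Real.pi →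
      v ∉ range fun t : ℝ => θ (1, t) := by
    rintro v hv ⟨t, ht⟩
    have h5 := hcos t
    have h6 := hcos 0
    have ht' : θ (1, t) = v := ht
    rw [ht'] at h5
    rcases hv with rfl | rfl
    · rw [show θ (1, 0) + Real.pi + Complex.arg u = (θ (1, 0) + Complex.arg u) + Real.pi by ring,
        Real.cos_add_pi] at h5
      linarith
    · rw [show θ (1, 0) - Real.pi + Complex.arg u = (θ (1, 0) + Complex.arg u) - Real.pi by ring,
        Real.cos_sub_pi] at h5
      linarith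
  rcases le_or_gt 0 n with h7 | h7
  · have h8 : (0 : ℝ) ≤ n := by exact_mod_cast h7
    apply hflip (θ (1, 0) + Real.pi) (Or.inl rfl)
    apply himg.out hm0 hm1
    constructor
    · linarith
    · nlinarith
  · have h8 : (n : ℝ) ≤ -1 := by exact_mod_cast (by omega : n ≤ -1)
    apply hflip (θ (1, 0) - Real.pi) (Or.inr rfl)
    apply himg.out hm1 hm0
    constructor
    · nlinarith
    · linarith

/-- Non-degenerate solution for every odd closed curve avoiding the origin. -/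
theorem sym_solution (g : Circle → ℂ) (hg : Continuous g) (hzero : (0 : ℂ) ∉ range g)
    (hodd : ∀ z, g (-z) = - g z) :
    ∃ p r : ℂ, p ≠ 0 ∧ p ∈ range g ∧ r ∈ range g ∧ p - r ∈ range g ∧
      ∀ t : ℝ, r ≠ (t : ℂ) * p := by
  by_contra hcon
  push Not at hcon
  have hdeg : ∀ p r : ℂ, p ∈ range g → r ∈ range g → p - r ∈ range g →
      ∃ t : ℝ, r = (t : ℂ) * p := by
    intro p r hp hr hpr
    have hp0 : p ≠ 0 := by
      rintro rfl
      exact hzero hp
    exact hcon p r hp0 hp hr hpr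
  set J : Set ℂ := range g with hJ
  have hJc : IsClosed J := (isCompact_range hg).isClosed
  obtain ⟨z0, _, hz0⟩ := isCompact_univ.exists_isMaxOn (univ_nonempty) hg.norm.continuousOn
  have hmax : ∀ z, ‖g z‖ ≤ ‖g z0‖ := fun z => hz0 (mem_univ z)
  obtain ⟨zm, _, hzm⟩ := isCompact_univ.exists_isMinOn (univ_nonempty) hg.norm.continuousOn
  have hmin : ∀ z, ‖g zm‖ ≤ ‖g z‖ := fun z => hzm (mem_univ z)
  have hP0 : g z0 ≠ 0 := fun h => hzero ⟨z0, h⟩
  obtain ⟨τ0, hτ0⟩ : ∃ t : ℝ, Circle.exp t = z0 := ⟨Complex.arg z0, Circle.exp_arg z0⟩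
  obtain ⟨τ1, hτ1⟩ : ∃ t : ℝ, Circle.exp t = zm := ⟨Complex.arg zm, Circle.exp_arg zm⟩
  set h : ℝ → ℂ := fun t => g (Circle.exp t) with hh
  have hhc : Continuous h := hg.comp Circle.exp.continuous
  have hJh : ∀ t, h t ∈ J := fun t => ⟨_, rfl⟩
  have hh0 : ∀ t, h t ≠ 0 := fun t e => hzero (e ▸ hJh t)
  have hπ : ∀ t, h (t + Real.pi) = - h t := by
    intro t
    show g (Circle.exp (t + Real.pi)) = - g (Circle.exp t)
    rw [exp_add_pi, hodd]
  have hP : h τ0 = g z0 := by show g (Circle.exp τ0) = g z0; rw [hτ0]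
  have hQ : h τ1 = g zm := by show g (Circle.exp τ1) = g zm; rw [hτ1]
  -- the map on the plane
  set x : ℝ × ℝ → ℂ := fun z => h z.1 - h (z.1 + Real.pi * z.2) with hx
  have hxc : Continuous x := by
    apply Continuous.sub (hhc.comp continuous_fst)
    apply hhc.comp
    fun_prop
  set T : ℝ × ℝ → ℝ := fun z => (h (z.1 + Real.pi * z.2) / h z.1).re with hT
  have hTc : Continuous T := by
    apply Complex.continuous_re.comp
    apply Continuous.div _ (hhc.comp continuous_fst) (fun z => hh0 _)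
    apply hhc.comp
    fun_prop
  have hTeq : ∀ z, x z ∈ J → h (z.1 + Real.pi * z.2) = (T z : ℂ) * h z.1 := by
    intro z hz
    obtain ⟨t, ht⟩ := hdeg (h z.1) (h (z.1 + Real.pi * z.2)) (hJh _) (hJh _) hz
    have : T z = t := by
      show (h (z.1 + Real.pi * z.2) / h z.1).re = t
      rw [ht, mul_div_assoc, div_self (hh0 _), mul_one, Complex.ofReal_re]
    rw [this, ← ht]
  have hT0 : ∀ z, x z ∈ J → T z ≠ 0 := by
    intro z hz h0
    have h1 := hTeq z hz
    rw [h0, Complex.ofReal_zero, zero_mul] at h1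
    exact hh0 _ h1
  have hT1 : ∀ z, x z ∈ J → T z ≠ 1 := by
    intro z hz h0
    have h1 := hTeq z hz
    rw [h0, Complex.ofReal_one, one_mul] at h1
    have h2 : x z = 0 := by
      show h z.1 - h (z.1 + Real.pi * z.2) = 0
      rw [h1, sub_self]
    rw [h2] at hz
    exact hzero hz
  set Z1 : Set (ℝ × ℝ) := x ⁻¹' J ∩ T ⁻¹' Icc 0 1 with hZ1
  set Z2 : Set (ℝ × ℝ) := x ⁻¹' J ∩ T ⁻¹' (Iic 0 ∪ Ici 1) with hZ2
  have hZ1c : IsClosed Z1 := (hJc.preimage hxc).inter (isClosed_Icc.preimage hTc)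
  have hZ2c : IsClosed Z2 :=
    (hJc.preimage hxc).inter ((isClosed_Iic.union isClosed_Ici).preimage hTc)
  have hdis : Disjoint Z1 Z2 := by
    rw [Set.disjoint_left]
    rintro z ⟨hz, hz1⟩ ⟨_, hz2⟩
    rcases hz2 with h2 | h2
    · exact hT0 z hz (le_antisymm h2 hz1.1)
    · exact hT1 z hz (le_antisymm hz1.2 h2)
  have hcover : x ⁻¹' J ⊆ Z1 ∪ Z2 := by
    intro z hz
    rcases le_or_gt (T z) 0 with h1 | h1
    · exact Or.inr ⟨hz, Or.inl h1⟩
    · rcases le_or_gt (T z) 1 with h2 | h2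
      · exact Or.inl ⟨hz, h1.le, h2⟩
      · exact Or.inr ⟨hz, Or.inr h2.le⟩
  -- the exterior component
  set E : Set ℂ := connectedComponentIn Jᶜ (2 * g z0) with hE
  have h2P : 2 * g z0 ∈ Jᶜ := by
    rintro ⟨z, hz⟩
    have h1 := hmax z
    rw [hz, norm_mul] at h1
    have h2 : 0 < ‖g z0‖ := norm_pos_iff.2 hP0
    have h3 : ‖(2 : ℂ)‖ = 2 := by norm_num
    rw [h3] at h1
    linarith
  have hEopen : IsOpen E := hJc.isOpen_compl.connectedComponentIn
  have hE0 : (0 : ℂ) ∉ E := by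
    intro h0
    have hconn : IsConnected E := isConnected_connectedComponentIn_iff.2 h2P
    have hpath : IsPathConnected E := hEopen.isConnected_iff_isPathConnected.1 hconn
    have hj := hpath.joinedIn 0 h0 (2 * g z0) (mem_connectedComponentIn h2P)
    obtain ⟨γ, hγ⟩ := hj
    apply no_path g hg hodd z0 hP0 hmax γ.extend γ.continuous_extend
    · exact γ.extend_zero
    · exact γ.extend_one
    · intro s hs
      have h1 : γ.extend s ∈ range γ.extend := ⟨s, rfl⟩
      rw [Path.extend_range] at h1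
      obtain ⟨t, ht⟩ := h1
      have h2 := connectedComponentIn_subset _ _ (hγ t)
      rw [ht] at h2
      exact h2 hs
  set V : Set (ℝ × ℝ) := x ⁻¹' E with hV
  have hVo : IsOpen V := hEopen.preimage hxc
  have hfr : frontier V ⊆ Z1 ∪ Z2 := by
    refine Subset.trans ?_ hcover
    intro z hz
    by_contra hzJ
    have hzJ' : x z ∈ Jᶜ := hzJ
    set E' : Set ℂ := connectedComponentIn Jᶜ (x z) with hE'
    have hE'o : IsOpen E' := hJc.isOpen_compl.connectedComponentIn
    have hmem : x z ∈ E' := mem_connectedComponentIn hzJ'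
    rw [hVo.frontier_eq] at hz
    obtain ⟨hz1, hz2⟩ := hz
    have hnhd : x ⁻¹' E' ∈ 𝓝 z := (hE'o.preimage hxc).mem_nhds hmem
    obtain ⟨y, hy1, hy2⟩ := mem_closure_iff_nhds.1 hz1 _ hnhd
    have e1 : connectedComponentIn Jᶜ (x y) = E' := (connectedComponentIn_eq hy1).symm
    have e2 : connectedComponentIn Jᶜ (x y) = E := (connectedComponentIn_eq hy2).symm
    apply hz2
    show x z ∈ E
    rw [← e2, e1]
    exact hmem
  -- the two connected sets
  set A0 : Set (ℝ × ℝ) := (fun y => (y, (0 : ℝ))) '' univ with hA0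
  set A1 : Set (ℝ × ℝ) := (fun y => (y, (1 : ℝ))) '' univ with hA1
  set B1 : Set (ℝ × ℝ) := (fun y => (τ1, y)) '' univ with hB1
  set K2 : Set (ℝ × ℝ) := (fun y => (τ0, y)) '' univ with hK2
  have cA0 : IsPreconnected A0 := isPreconnected_univ.image _ (by fun_prop)
  have cA1 : IsPreconnected A1 := isPreconnected_univ.image _ (by fun_prop)
  have cB1 : IsPreconnected B1 := isPreconnected_univ.image _ (by fun_prop)
  have cK2 : IsPreconnected K2 := isPreconnected_univ.image _ (by fun_prop)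
  have m1 : ((τ1, 1) : ℝ × ℝ) ∈ A0 ∪ B1 := Or.inr ⟨1, trivial, rfl⟩
  have m2 : ((τ1, 1) : ℝ × ℝ) ∈ A1 := ⟨τ1, trivial, rfl⟩
  have m3 : ((τ1, 0) : ℝ × ℝ) ∈ A0 := ⟨τ1, trivial, rfl⟩
  have m4 : ((τ1, 0) : ℝ × ℝ) ∈ B1 := ⟨0, trivial, rfl⟩
  have cAB : IsPreconnected (A0 ∪ B1) := IsPreconnected.union _ m3 m4 cA0 cB1
  have cK1 : IsPreconnected ((A0 ∪ B1) ∪ A1) := IsPreconnected.union _ m1 m2 cAB cA1
  have dK1 : Disjoint ((A0 ∪ B1) ∪ A1) Z1 := by
    rw [Set.disjoint_left]
    rintro z ((⟨y, _, rfl⟩ | ⟨y, _, rfl⟩) | ⟨y, _, rfl⟩) ⟨hz, hz1⟩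
    · apply hzero
      have : x (y, 0) = 0 := by
        show h y - h (y + Real.pi * 0) = 0
        rw [mul_zero, add_zero, sub_self]
      rw [← this]; exact hz
    · have h1 := hTeq _ hz
      have h2 : ‖h τ1‖ ≤ ‖h (τ1 + Real.pi * y)‖ := by rw [hQ]; exact hmin _
      have h3 : h (τ1 + Real.pi * y) = (T (τ1, y) : ℂ) * h τ1 := h1
      rw [h3, norm_mul, Complex.norm_real, Real.norm_eq_abs, abs_of_nonneg hz1.1] at h2
      have h4 : 0 < ‖h τ1‖ := norm_pos_iff.2 (hh0 _)
      have h5 : T (τ1, y) ≤ 1 := hz1.2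
      have h6 : 1 ≤ T (τ1, y) := by
        by_contra hc
        push Not at hc
        nlinarith
      exact hT1 _ hz (le_antisymm h5 h6)
    · have h1 := hTeq _ hz
      have h3 : h (y + Real.pi * 1) = (T (y, 1) : ℂ) * h y := h1
      rw [mul_one, hπ] at h3
      have h4 : (T (y, 1) : ℂ) = -1 := by
        have : ((T (y, 1) : ℂ) + 1) * h y = 0 := by linear_combination -h3
        rcases mul_eq_zero.1 this with h5 | h5
        · linear_combination h5
        · exact absurd h5 (hh0 _)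
      have h5 : T (y, 1) = -1 := by exact_mod_cast h4
      have h6 : 0 ≤ T (y, 1) := hz1.1
      linarith
  have dK2 : Disjoint K2 Z2 := by
    rw [Set.disjoint_left]
    rintro z ⟨y, _, rfl⟩ ⟨hz, hz2⟩
    have h1 := hTeq _ hz
    have h3 : h (τ0 + Real.pi * y) = (T (τ0, y) : ℂ) * h τ0 := h1
    have h4 : 0 < ‖h τ0‖ := norm_pos_iff.2 (hh0 _)
    have h5 : ‖h (τ0 + Real.pi * y)‖ ≤ ‖h τ0‖ := by rw [hP]; exact hmax _
    rw [h3, norm_mul, Complex.norm_real, Real.norm_eq_abs] at h5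
    have h6 : |T (τ0, y)| ≤ 1 := by
      by_contra hc
      push Not at hc
      nlinarith
    obtain ⟨z', hz'⟩ := hz
    have h7 : x (τ0, y) = ((1 - T (τ0, y) : ℝ) : ℂ) * h τ0 := by
      show h τ0 - h (τ0 + Real.pi * y) = _
      rw [h3]; push_cast; ring
    have h8 := hmax z'
    rw [hz', h7, norm_mul, Complex.norm_real, Real.norm_eq_abs, ← hP] at h8
    have h9 : |1 - T (τ0, y)| ≤ 1 := by
      by_contra hc
      push Not at hc
      nlinarith
    have h10 : 0 ≤ T (τ0, y) := by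
      have := (abs_le.1 h9).2
      linarith
    have h11 : T (τ0, y) ≤ 1 := (abs_le.1 h6).2
    rcases hz2 with h12 | h12
    · exact hT0 _ ⟨z', hz'⟩ (le_antisymm h12 h10)
    · exact hT1 _ ⟨z', hz'⟩ (le_antisymm h11 h12)
  apply janis V Z1 Z2 ((A0 ∪ B1) ∪ A1) K2 hZ1c hZ2c hdis hfr cK1 cK2 dK1 dK2 (τ0, 0) (τ0, 1)
  · exact Or.inl (Or.inl ⟨τ0, trivial, rfl⟩)
  · exact ⟨0, trivial, rfl⟩
  · exact Or.inr ⟨τ0, trivial, rfl⟩
  · exact ⟨1, trivial, rfl⟩
  · intro ha
    apply hE0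
    have : x (τ0, 0) = 0 := by
      show h τ0 - h (τ0 + Real.pi * 0) = 0
      rw [mul_zero, add_zero, sub_self]
    rw [← this]; exact ha
  · show x (τ0, 1) ∈ E
    have : x (τ0, 1) = 2 * g z0 := by
      show h τ0 - h (τ0 + Real.pi * 1) = 2 * g z0
      rw [mul_one, hπ, hP]; ring
    rw [this]
    exact mem_connectedComponentIn h2P

/-- The hexagon spanned by two independent vectors of a symmetric set. -/
theorem hexagon_lin (R : Set ℂ) (hneg : ∀ x ∈ R, -x ∈ R) (p r : ℂ) (hp0 : p ≠ 0)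
    (hp : p ∈ R) (hr : r ∈ R) (hpr : p - r ∈ R) (hind : ∀ t : ℝ, r ≠ (t : ℂ) * p) :
    ∃ L : ℂ ≃ₗ[ℝ] ℂ, ∀ k : ℕ,
      L (Complex.exp (2 * (Real.pi : ℂ) * Complex.I * (k : ℂ) / 6)) ∈ R := by
  refine ⟨LinearEquiv.ofInjectiveEndo (lin r p) (lin_inj r p hp0 hind), ?_⟩
  have hζ : ∀ k : ℕ, Complex.exp (2 * (Real.pi : ℂ) * Complex.I * (k : ℂ) / 6)
      = (-(w * w)) ^ k := by
    intro k
    rw [← zeta_eq, ← Complex.exp_nat_mul]
    congr 1
    ring
  have hζ2 : (-(w * w)) ^ 2 = -(w * w) - 1 := by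
    linear_combination w * w_cube + w_sum
  have key : ∀ k : ℕ, (lin r p ((-(w * w)) ^ k) ∈ R)
      ∧ (lin r p ((-(w * w)) ^ (k + 1)) ∈ R)
      ∧ (lin r p ((-(w * w)) ^ (k + 2)) ∈ R) := by
    intro k
    induction k with
    | zero =>
      refine ⟨?_, ?_, ?_⟩
      · rw [pow_zero, lin_one]; exact hr
      · rw [zero_add, pow_one, lin_zeta]; exact hp
      · rw [zero_add, hζ2, map_sub, lin_zeta, lin_one]; exact hpr
    | succ k ih =>
      obtain ⟨i1, i2, i3⟩ := ih
      refine ⟨i2, by rw [show k + 1 + 1 = k + 2 by ring]; exact i3, ?_⟩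
      have e : (-(w * w)) ^ (k + 1 + 2) = -((-(w * w)) ^ k) := by
        have : (-(w * w)) ^ 3 = -1 := by
          linear_combination (-(w * (w * w)) - 1) * w_cube
        rw [show k + 1 + 2 = k + 3 by ring, pow_add, this]; ring
      rw [e, map_neg]
      exact hneg _ i1
  intro k
  rw [hζ]
  exact (key k).1

/-- Antiperiodic extension of a path from `p` to `-p`. -/
theorem exists_odd (α : ℝ → ℂ) (hα : Continuous α) (h1 : α 1 = - α 0) :
    ∃ G : Circle → ℂ, Continuous G ∧ (∀ z, G (-z) = - G z) ∧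
      ∀ z, ∃ s, G z = α s ∨ G z = - α s := by
  set f : ℝ → ℂ := fun s => if s ≤ 1 then α s else - α (s - 1) with hf
  have hfc : Continuous f := by
    apply Continuous.if_le hα _ continuous_id continuous_const
    · intro s hs
      have : s = 1 := hs
      rw [this, sub_self, h1]
    · exact (hα.comp (continuous_id.sub continuous_const)).neg
  have : Fact ((0 : ℝ) < 2) := ⟨by norm_num⟩
  have hf02 : f 0 = f (0 + 2) := by
    simp only [hf]
    rw [if_pos (by norm_num), if_neg (by norm_num)]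
    have : (0 : ℝ) + 2 - 1 = 1 := by norm_num
    rw [this, h1, neg_neg]
  set L : AddCircle (2 : ℝ) → ℂ := AddCircle.liftIco 2 0 f with hL
  have hLc : Continuous L := AddCircle.liftIco_continuous hf02 hfc.continuousOn
  have hLapp : ∀ s : ℝ, s ∈ Ico (0 : ℝ) 2 → L (s : AddCircle (2 : ℝ)) = f s := by
    intro s hs
    exact AddCircle.liftIco_coe_apply (by rw [zero_add]; exact hs)
  have hper : ∀ s : ℝ, ((s + 2 : ℝ) : AddCircle (2 : ℝ)) = (s : AddCircle (2 : ℝ)) := by
    intro s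
    rw [AddCircle.coe_add, AddCircle.coe_period, add_zero]
  have hrep : ∀ x : AddCircle (2 : ℝ), ∃ s ∈ Ico (0 : ℝ) 2, (s : AddCircle (2 : ℝ)) = x := by
    intro x
    obtain ⟨s, hs, hsx⟩ := AddCircle.eq_coe_Ico x
    exact ⟨s, hs, hsx⟩
  have hanti : ∀ x : AddCircle (2 : ℝ), L (x + ((1 : ℝ) : AddCircle (2 : ℝ))) = - L x := by
    intro x
    obtain ⟨s, hs, rfl⟩ := hrep x
    rw [← AddCircle.coe_add, hLapp s hs]
    rcases lt_or_ge s 1 with h | h
    · rw [hLapp (s + 1) ⟨by linarith [hs.1], by linarith⟩]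
      simp only [hf]
      rw [if_pos h.le]
      rcases eq_or_lt_of_le hs.1 with h0 | h0
      · rw [← h0, zero_add, if_pos le_rfl, h1]
      · rw [if_neg (by linarith), add_sub_cancel_right]
    · have e : s + 1 = (s - 1) + 2 := by ring
      rw [e, hper, hLapp (s - 1) ⟨by linarith, by linarith [hs.2]⟩]
      simp only [hf]
      rw [if_pos (by linarith [hs.2])]
      rcases eq_or_lt_of_le h with h0 | h0
      · rw [← h0, sub_self, if_pos le_rfl, h1, neg_neg]
      · rw [if_neg (by linarith), neg_neg]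
  set Φ := AddCircle.homeomorphCircle (T := (2 : ℝ)) (by norm_num) with hΦ
  refine ⟨fun z => L (Φ.symm z), hLc.comp Φ.symm.continuous, ?_, ?_⟩
  · intro z
    obtain ⟨x, rfl⟩ := Φ.surjective z
    have e : -(Φ x) = Φ (x + ((1 : ℝ) : AddCircle (2 : ℝ))) := by
      rw [hΦ, AddCircle.homeomorphCircle_apply, AddCircle.homeomorphCircle_apply,
        AddCircle.toCircle_add, AddCircle.toCircle_apply_mk]
      have : 2 * Real.pi / 2 * 1 = 0 + Real.pi := by ring
      rw [this, exp_add_pi, Circle.exp_zero]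
      simp
    show L (Φ.symm (-(Φ x))) = - L (Φ.symm (Φ x))
    rw [e, Φ.symm_apply_apply, Φ.symm_apply_apply, hanti]
  · intro z
    obtain ⟨s, hs, hsx⟩ := hrep (Φ.symm z)
    show ∃ s, L (Φ.symm z) = α s ∨ L (Φ.symm z) = - α s
    rw [← hsx, hLapp s hs]
    simp only [hf]
    split_ifs with h
    · exact ⟨s, Or.inl rfl⟩
    · exact ⟨s - 1, Or.inr rfl⟩

/-- Every centrally symmetric Jordan curve inscribes an affinely regular hexagon. -/
theorem main_sym (f : Circle → ℂ) (hf : Continuous f) (hinj : Function.Injective f) (c : ℂ)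
    (hsym : ∀ z ∈ range f, 2 * c - z ∈ range f) :
    ∃ A : AffineEquiv ℝ ℂ ℂ, ∀ k : Fin 6,
      A (Complex.exp (2 * (Real.pi : ℂ) * Complex.I * ((k : ℕ) : ℂ) / 6)) ∈ Set.range f := by
  set g : Circle → ℂ := fun z => f z - c with hgdef
  have hgc : Continuous g := hf.sub continuous_const
  have hginj : Function.Injective g := fun x y hxy => hinj (sub_left_injective hxy)
  have hmem : ∀ x : ℂ, x ∈ range g → c + x ∈ range f := by
    rintro x ⟨y, rfl⟩
    exact ⟨y, by show f y = c + (f y - c); ring⟩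
  have hneg : ∀ x ∈ range g, -x ∈ range g := by
    rintro _ ⟨z, rfl⟩
    obtain ⟨y, hy⟩ := hsym (f z) ⟨z, rfl⟩
    exact ⟨y, by show f y - c = -(f z - c); rw [hy]; ring⟩
  -- a point with nonzero image and a path to its reflection avoiding the centre
  obtain ⟨z1, hz1⟩ : ∃ z1, g z1 ≠ 0 := by
    by_contra hcon
    push Not at hcon
    have h2 : (1 : Circle) = Circle.exp Real.pi := hginj (by rw [hcon, hcon])
    have h3 := congrArg (fun z : Circle => (z : ℂ)) h2
    simp only [Circle.coe_one, Circle.coe_exp, Complex.exp_pi_mul_I] at h3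
    norm_num at h3
  obtain ⟨z2, hz2⟩ := hneg (g z1) ⟨z1, rfl⟩
  have hz20 : g z2 ≠ 0 := by rw [hz2]; exact neg_ne_zero.2 hz1
  obtain ⟨γ, hγ, γ0, γ1, hγne⟩ : ∃ γ : ℝ → Circle, Continuous γ ∧ γ 0 = z1 ∧ γ 1 = z2 ∧
      ∀ s, g (γ s) ≠ 0 := by
    by_cases h : ∃ z, g z = 0
    · obtain ⟨z0, hz0⟩ := h
      obtain ⟨γ, hγ, γ0, γ1, hne⟩ := exists_path z0 z1 z2
        (by rintro rfl; exact hz1 hz0) (by rintro rfl; exact hz20 hz0)
      exact ⟨γ, hγ, γ0, γ1, fun s hs => hne s (hginj (hs.trans hz0.symm))⟩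
    · push Not at h
      obtain ⟨t1, ht1⟩ : ∃ t : ℝ, Circle.exp t = z1 := ⟨Complex.arg z1, Circle.exp_arg z1⟩
      obtain ⟨t2, ht2⟩ : ∃ t : ℝ, Circle.exp t = z2 := ⟨Complex.arg z2, Circle.exp_arg z2⟩
      refine ⟨fun s => Circle.exp ((1 - s) * t1 + s * t2), ?_, ?_, ?_, fun s => h _⟩
      · apply Circle.exp.continuous.comp
        fun_prop
      · simp [ht1]
      · simp [ht2]
  obtain ⟨G, hG, hGodd, hGr⟩ := exists_odd (fun s => g (γ s)) (hgc.comp hγ)
    (by show g (γ 1) = - g (γ 0); rw [γ0, γ1, hz2])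
  have hGsub : ∀ x ∈ range G, x ∈ range g := by
    rintro _ ⟨z, rfl⟩
    obtain ⟨s, h | h⟩ := hGr z
    · rw [h]; exact ⟨_, rfl⟩
    · rw [h]; exact hneg _ ⟨_, rfl⟩
  have hG0 : (0 : ℂ) ∉ range G := by
    rintro ⟨z, hz⟩
    obtain ⟨s, h | h⟩ := hGr z
    · exact hγne s (h.symm.trans hz)
    · have : - g (γ s) = 0 := h.symm.trans hz
      exact hγne s (neg_eq_zero.1 this)
  obtain ⟨p, r, hp0, hp, hr, hpr, hind⟩ := sym_solution G hG hG0 hGodd
  obtain ⟨L, hL⟩ := hexagon_lin (range g) hneg p r hp0 (hGsub _ hp) (hGsub _ hr) (hGsub _ hpr)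
    hind
  refine ⟨L.toAffineEquiv.trans (AffineEquiv.constVAdd ℝ ℂ c), ?_⟩
  intro k
  exact hmem _ (hL k)

end Pool.Agent.Helper590.Hex
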