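import Mathlib
import Pool.Agent.Helper590.Hex.Sym

/-!
Jordan curves symmetric about a line.
-/

set_option autoImplicit false
open Set Filter Topology

namespace Pool.Agent.Helper590.Hex

theorem sin_band {X : Type*} [TopologicalSpace X] (θ : X → ℝ) (hθ : Continuous θ)
    (S : Set X) (hS : IsPreconnected S) (hsin : ∀ s ∈ S, 0 ≤ Real.sin (θ s)) (p q : X)
    (hp : p ∈ S) (hq : q ∈ S) (hp1 : Real.sin (θ p) = 0) (hp2 : 0 < Real.cos (θ p))
    (hq1 : Real.sin (θ q) = 0) (hq2 : Real.cos (θ q) < 0) : θ q = θ p + Real.pi := by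
  have hoc := (hS.image θ hθ.continuousOn).ordConnected
  have hpi := Real.pi_pos
  have hc1 : Real.cos (θ p) = 1 := by
    have h1 := Real.sin_sq_add_cos_sq (θ p)
    rw [hp1] at h1
    nlinarith
  have hs : ∀ v : ℝ, Real.sin (θ p + v) = Real.sin v := by
    intro v
    rw [Real.sin_add, hp1, hc1]; ring
  have hc : ∀ v : ℝ, Real.cos (θ p + v) = Real.cos v := by
    intro v
    rw [Real.cos_add, hp1, hc1]; ring
  set d : ℝ := θ q - θ p with hd
  have hdq : θ q = θ p + d := by rw [hd]; ring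
  have hup : ∀ v, 0 ≤ v → v ≤ d → 0 ≤ Real.sin v := by
    intro v h1 h2
    have hmem : θ p + v ∈ θ '' S :=
      hoc.out ⟨p, hp, rfl⟩ ⟨q, hq, rfl⟩ ⟨by linarith, by linarith⟩
    obtain ⟨s, hs', hsv⟩ := hmem
    have := hsin s hs'
    rw [hsv, hs] at this
    exact this
  have hdown : ∀ v, d ≤ v → v ≤ 0 → 0 ≤ Real.sin v := by
    intro v h1 h2
    have hmem : θ p + v ∈ θ '' S :=
      hoc.out ⟨q, hq, rfl⟩ ⟨p, hp, rfl⟩ ⟨by linarith, by linarith⟩
    obtain ⟨s, hs', hsv⟩ := hmem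
    have := hsin s hs'
    rw [hsv, hs] at this
    exact this
  have hd0 : 0 ≤ d := by
    by_contra hneg
    push Not at hneg
    have h1 : Real.sin (max d (-Real.pi) / 2) < 0 := by
      apply Real.sin_neg_of_neg_of_neg_pi_lt
      · have : max d (-Real.pi) < 0 := max_lt hneg (by linarith)
        linarith
      · have : -Real.pi ≤ max d (-Real.pi) := le_max_right _ _
        linarith
    have h2 : max d (-Real.pi) < 0 := max_lt hneg (by linarith)
    have h3 : d ≤ max d (-Real.pi) := le_max_left _ _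
    have := hdown (max d (-Real.pi) / 2) (by linarith) (by linarith)
    linarith
  have hd1 : d ≤ Real.pi := by
    by_contra hgt
    push Not at hgt
    have h1 : 0 < min (d - Real.pi) Real.pi := lt_min (by linarith) hpi
    have h2 : min (d - Real.pi) Real.pi ≤ d - Real.pi := min_le_left _ _
    have h3 : min (d - Real.pi) Real.pi ≤ Real.pi := min_le_right _ _
    have h4 := hup (min (d - Real.pi) Real.pi / 2 + Real.pi) (by linarith) (by linarith)
    rw [Real.sin_add_pi] at h4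
    have h5 : 0 < Real.sin (min (d - Real.pi) Real.pi / 2) :=
      Real.sin_pos_of_pos_of_lt_pi (by linarith) (by linarith)
    linarith
  have hdpi : d = Real.pi := by
    by_contra hne
    have hlt : d < Real.pi := lt_of_le_of_ne hd1 hne
    rcases eq_or_lt_of_le hd0 with h | h
    · rw [hdq, ← h, add_zero] at hq2
      linarith
    · have := Real.sin_pos_of_pos_of_lt_pi h hlt
      rw [hdq, hs] at hq1
      linarith
  rw [hdq, hdpi]

/-- Crossing in the upper half plane. -/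
theorem half_cross (u γ : ℝ → ℂ) (hu : Continuous u) (hγ : Continuous γ) (m : ℝ)
    (u0 : (u 0).im = 0) (u1 : (u 1).im = 0) (h0m : (u 0).re < m) (hm1 : m < (u 1).re)
    (huim : ∀ t, 0 ≤ (u t).im) (γ0 : γ 0 = (m : ℂ)) (hγim : ∀ s, 0 ≤ (γ s).im)
    (hγ1 : ∀ t, (u t).im ≤ (γ 1).im) : ∃ s t, γ s = u t := by
  by_contra hcon
  push Not at hcon
  set H : ℝ × ℝ → ℂ := fun q => γ q.1 - u q.2 with hH
  have hHc : Continuous H := (hγ.comp continuous_fst).sub (hu.comp continuous_snd)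
  have hH0 : ∀ q, H q ≠ 0 := fun q h => hcon q.1 q.2 (sub_eq_zero.1 h)
  obtain ⟨θ, hθ, hHθ⟩ := exists_lift H hHc hH0
  have hn : ∀ q, 0 < ‖H q‖ := fun q => norm_pos_iff.2 (hH0 q)
  have hre : ∀ q, (H q).re = ‖H q‖ * Real.cos (θ q) := by
    intro q
    conv_lhs => rw [hHθ q]
    rw [Complex.re_ofReal_mul, Complex.exp_ofReal_mul_I_re]
  have him : ∀ q, (H q).im = ‖H q‖ * Real.sin (θ q) := by
    intro q
    conv_lhs => rw [hHθ q]
    rw [Complex.im_ofReal_mul, Complex.exp_ofReal_mul_I_im]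
  have sin_nonneg : ∀ q, 0 ≤ (H q).im → 0 ≤ Real.sin (θ q) := by
    intro q h
    rw [him q] at h
    by_contra hc
    push Not at hc
    have := mul_neg_of_pos_of_neg (hn q) hc
    linarith
  have sin_nonpos : ∀ q, (H q).im ≤ 0 → Real.sin (θ q) ≤ 0 := by
    intro q h
    rw [him q] at h
    by_contra hc
    push Not at hc
    have := mul_pos (hn q) hc
    linarith
  have i00 : (H (0, 0)).im = 0 := by
    show (γ 0 - u 0).im = 0
    rw [γ0]; simp [u0]
  have i01 : (H (0, 1)).im = 0 := by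
    show (γ 0 - u 1).im = 0
    rw [γ0]; simp [u1]
  have s00 : Real.sin (θ (0, 0)) = 0 :=
    le_antisymm (sin_nonpos _ i00.le) (sin_nonneg _ i00.ge)
  have s01 : Real.sin (θ (0, 1)) = 0 :=
    le_antisymm (sin_nonpos _ i01.le) (sin_nonneg _ i01.ge)
  have c00 : 0 < Real.cos (θ (0, 0)) := by
    have h1 : 0 < (H (0, 0)).re := by
      show 0 < (γ 0 - u 0).re
      rw [γ0]; simp; linarith
    rw [hre] at h1
    exact (mul_pos_iff_of_pos_left (hn _)).1 h1
  have c01 : Real.cos (θ (0, 1)) < 0 := by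
    have h1 : (H (0, 1)).re < 0 := by
      show (γ 0 - u 1).re < 0
      rw [γ0]; simp; linarith
    rw [hre] at h1
    by_contra hc
    push Not at hc
    have := mul_nonneg (hn (0, 1)).le hc
    linarith
  -- the outer sides
  set A0 : Set (ℝ × ℝ) := (fun y => (y, (0 : ℝ))) '' univ
  set A1 : Set (ℝ × ℝ) := (fun y => (y, (1 : ℝ))) '' univ
  set B1 : Set (ℝ × ℝ) := (fun y => ((1 : ℝ), y)) '' univ
  set B0 : Set (ℝ × ℝ) := (fun y => ((0 : ℝ), y)) '' univ
  have cA0 : IsPreconnected A0 := isPreconnected_univ.image _ (by fun_prop)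
  have cA1 : IsPreconnected A1 := isPreconnected_univ.image _ (by fun_prop)
  have cB1 : IsPreconnected B1 := isPreconnected_univ.image _ (by fun_prop)
  have cB0 : IsPreconnected B0 := isPreconnected_univ.image _ (by fun_prop)
  have m1 : ((1, 1) : ℝ × ℝ) ∈ A0 ∪ B1 := Or.inr ⟨1, trivial, rfl⟩
  have m2 : ((1, 1) : ℝ × ℝ) ∈ A1 := ⟨1, trivial, rfl⟩
  have m3 : ((1, 0) : ℝ × ℝ) ∈ A0 := ⟨1, trivial, rfl⟩
  have m4 : ((1, 0) : ℝ × ℝ) ∈ B1 := ⟨0, trivial, rfl⟩
  have cAB : IsPreconnected (A0 ∪ B1) := IsPreconnected.union _ m3 m4 cA0 cB1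
  have cK1 : IsPreconnected ((A0 ∪ B1) ∪ A1) := IsPreconnected.union _ m1 m2 cAB cA1
  have r1 : θ (0, 1) = θ (0, 0) + Real.pi := by
    apply sin_band θ hθ ((A0 ∪ B1) ∪ A1) cK1 _ (0, 0) (0, 1)
      (Or.inl (Or.inl ⟨0, trivial, rfl⟩)) (Or.inr ⟨0, trivial, rfl⟩) s00 c00 s01 c01
    rintro z ((⟨y, _, rfl⟩ | ⟨y, _, rfl⟩) | ⟨y, _, rfl⟩)
    · apply sin_nonneg
      show 0 ≤ (γ y - u 0).im
      rw [Complex.sub_im, u0]; linarith [hγim y]
    · apply sin_nonneg
      show 0 ≤ (γ 1 - u y).im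
      rw [Complex.sub_im]; linarith [hγ1 y]
    · apply sin_nonneg
      show 0 ≤ (γ y - u 1).im
      rw [Complex.sub_im, u1]; linarith [hγim y]
  have r2 : -θ (0, 1) = -θ (0, 0) + Real.pi := by
    apply sin_band (fun z => -θ z) hθ.neg B0 cB0 _ (0, 0) (0, 1)
      ⟨0, trivial, rfl⟩ ⟨1, trivial, rfl⟩
    · rw [Real.sin_neg, s00, neg_zero]
    · rw [Real.cos_neg]; exact c00
    · rw [Real.sin_neg, s01, neg_zero]
    · rw [Real.cos_neg]; exact c01
    · rintro z ⟨y, _, rfl⟩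
      rw [Real.sin_neg]
      have : Real.sin (θ (0, y)) ≤ 0 := by
        apply sin_nonpos
        show (γ 0 - u y).im ≤ 0
        rw [γ0, Complex.sub_im, Complex.ofReal_im]
        linarith [huim y]
      linarith
  have := Real.pi_pos
  linarith

/-- Core of the line symmetric case. -/
theorem line_core (J : Set ℂ) (hJc : IsClosed J) (hconj : ∀ z ∈ J, (starRingEnd ℂ) z ∈ J)
    (u : ℝ → ℂ) (hu : Continuous u) (huJ : ∀ s, u s ∈ J) (hinj : InjOn u (Icc 0 1))
    (hpos : ∀ s ∈ Ioo (0 : ℝ) 1, 0 < (u s).im) (h0 : (u 0).im = 0) (h1 : (u 1).im = 0)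
    (hcov : ∀ z ∈ J, 0 ≤ z.im → ∃ s ∈ Icc (0 : ℝ) 1, u s = z)
    (hlt : (u 0).re < (u 1).re) :
    ∃ c d y : ℝ, d ≠ 0 ∧ y ≠ 0 ∧ (⟨c + d, y⟩ : ℂ) ∈ J ∧ (⟨c - d, y⟩ : ℂ) ∈ J ∧
      (⟨c, 2 * y⟩ : ℂ) ∈ J := by
  by_contra hcon
  push Not at hcon
  have hnn : ∀ s ∈ Icc (0 : ℝ) 1, 0 ≤ (u s).im := by
    rintro s ⟨hs0, hs1⟩
    rcases eq_or_lt_of_le hs0 with h | h
    · rw [← h, h0]
    · rcases eq_or_lt_of_le hs1 with h' | h'
      · rw [h', h1]
      · exact (hpos s ⟨h, h'⟩).le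
  have himz : ∀ s ∈ Icc (0 : ℝ) 1, (u s).im = 0 → s = 0 ∨ s = 1 := by
    rintro s ⟨hs0, hs1⟩ hz
    by_contra hc
    push Not at hc
    have := hpos s ⟨lt_of_le_of_ne hs0 (Ne.symm hc.1), lt_of_le_of_ne hs1 hc.2⟩
    linarith
  obtain ⟨S, hSI, hSmax⟩ := isCompact_Icc.exists_isMaxOn (nonempty_Icc.2 zero_le_one)
    (Complex.continuous_im.comp hu).continuousOn
  have hmax : ∀ s ∈ Icc (0 : ℝ) 1, (u s).im ≤ (u S).im := fun s hs => hSmax hs
  have hymax : 0 < (u S).im :=
    lt_of_lt_of_le (hpos (1 / 2) ⟨by norm_num, by norm_num⟩)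
      (hmax (1 / 2) ⟨by norm_num, by norm_num⟩)
  have hS0 : 0 < S := by
    rcases eq_or_lt_of_le hSI.1 with h | h
    · rw [← h, h0] at hymax; exact absurd hymax (lt_irrefl 0)
    · exact h
  have hS1 : S < 1 := by
    rcases eq_or_lt_of_le hSI.2 with h | h
    · rw [h, h1] at hymax; exact absurd hymax (lt_irrefl 0)
    · exact h
  set σ : ℝ → ℝ := fun s => max 0 (min s S) with hσ
  set τ : ℝ → ℝ := fun t => max S (min t 1) with hτ
  have hσc : Continuous σ := by fun_prop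
  have hτc : Continuous τ := by fun_prop
  have hσ0 : ∀ s, 0 ≤ σ s := fun s => le_max_left _ _
  have hσ1 : ∀ s, σ s ≤ S := fun s => max_le hS0.le (min_le_right _ _)
  have hτ0 : ∀ s, S ≤ τ s := fun s => le_max_left _ _
  have hτ1 : ∀ s, τ s ≤ 1 := fun s => max_le hS1.le (min_le_right _ _)
  have hσI : ∀ s, σ s ∈ Icc (0 : ℝ) 1 := fun s => ⟨hσ0 s, (hσ1 s).trans hS1.le⟩
  have hτI : ∀ s, τ s ∈ Icc (0 : ℝ) 1 := fun s => ⟨hS0.le.trans (hτ0 s), hτ1 s⟩
  have eσ0 : σ 0 = 0 := by simp [hσ]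
  have eσS : σ S = S := by simp [hσ]; exact hS0.le
  have eτS : τ S = S := by simp [hτ]
  have eτ1 : τ 1 = 1 := by simp [hτ]; exact hS1.le
  set F : ℝ × ℝ → ℝ := fun z => (u (σ z.1)).im - (u (τ z.2)).im with hF
  have hFc : Continuous F := by
    apply Continuous.sub
    · exact Complex.continuous_im.comp (hu.comp (hσc.comp continuous_fst))
    · exact Complex.continuous_im.comp (hu.comp (hτc.comp continuous_snd))
  set x : ℝ × ℝ → ℂ := fun z =>
    ((((u (σ z.1)).re + (u (τ z.2)).re) / 2 : ℝ) : ℂ)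
      + (((u (σ z.1)).im + (u (τ z.2)).im : ℝ) : ℂ) * Complex.I with hx
  have hxc : Continuous x := by
    apply Continuous.add
    · apply Complex.continuous_ofReal.comp
      apply Continuous.div_const
      exact (Complex.continuous_re.comp (hu.comp (hσc.comp continuous_fst))).add
        (Complex.continuous_re.comp (hu.comp (hτc.comp continuous_snd)))
    · apply Continuous.mul _ continuous_const
      apply Complex.continuous_ofReal.comp
      exact (Complex.continuous_im.comp (hu.comp (hσc.comp continuous_fst))).add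
        (Complex.continuous_im.comp (hu.comp (hτc.comp continuous_snd)))
  have hxre : ∀ z, (x z).re = ((u (σ z.1)).re + (u (τ z.2)).re) / 2 := by
    intro z; simp [hx]
  have hxim : ∀ z, (x z).im = (u (σ z.1)).im + (u (τ z.2)).im := by
    intro z; simp [hx]
  -- the point above everything and the point below
  have heJ : ∀ z ∈ J, z.im ≠ 2 * (u S).im := by
    intro z hz h
    obtain ⟨s, hs, hsz⟩ := hcov z hz (by rw [h]; linarith)
    have := hmax s hs
    rw [hsz, h] at this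
    linarith
  have hmJ : ∀ z ∈ J, z.im = 0 → z.re ≠ ((u 0).re + (u 1).re) / 2 := by
    intro z hz hzi h
    obtain ⟨s, hs, hsz⟩ := hcov z hz (by rw [hzi])
    rcases himz s hs (by rw [hsz]; exact hzi) with h2 | h2
    · rw [h2] at hsz
      rw [← hsz] at h
      linarith
    · rw [h2] at hsz
      rw [← hsz] at h
      linarith
  have hno : ∀ z, F z = 0 → x z ∉ J := by
    intro z hFz hxJ
    have hy : (u (σ z.1)).im = (u (τ z.2)).im := by
      have : (u (σ z.1)).im - (u (τ z.2)).im = 0 := hFz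
      linarith
    by_cases hy0 : (u (σ z.1)).im = 0
    · have e1 : σ z.1 = 0 := by
        rcases himz _ (hσI z.1) hy0 with h | h
        · exact h
        · have := hσ1 z.1; linarith
      have e2 : τ z.2 = 1 := by
        rcases himz _ (hτI z.2) (by rw [← hy]; exact hy0) with h | h
        · have := hτ0 z.2; linarith
        · exact h
      apply hmJ _ hxJ
      · rw [hxim, e1, e2, h0, h1, add_zero]
      · rw [hxre, e1, e2]
    · by_cases hd0 : ((u (σ z.1)).re - (u (τ z.2)).re) / 2 = 0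
      · have e3 : u (σ z.1) = u (τ z.2) := Complex.ext (by linarith) hy
        have e4 := hinj (hσI z.1) (hτI z.2) e3
        have e5 : σ z.1 = S := le_antisymm (hσ1 _) (e4 ▸ hτ0 _)
        apply heJ _ hxJ
        rw [hxim, ← hy, e5]; ring
      · apply hcon (((u (σ z.1)).re + (u (τ z.2)).re) / 2)
          (((u (σ z.1)).re - (u (τ z.2)).re) / 2) (u (σ z.1)).im hd0 hy0
        · have : (⟨((u (σ z.1)).re + (u (τ z.2)).re) / 2 + ((u (σ z.1)).re - (u (τ z.2)).re) / 2,
            (u (σ z.1)).im⟩ : ℂ) = u (σ z.1) := Complex.ext (by simp; ring) rfl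
          rw [this]; exact huJ _
        · have : (⟨((u (σ z.1)).re + (u (τ z.2)).re) / 2 - ((u (σ z.1)).re - (u (τ z.2)).re) / 2,
            (u (σ z.1)).im⟩ : ℂ) = u (τ z.2) := Complex.ext (by simp; ring) hy
          rw [this]; exact huJ _
        · have : (⟨((u (σ z.1)).re + (u (τ z.2)).re) / 2, 2 * (u (σ z.1)).im⟩ : ℂ) = x z :=
            Complex.ext (by rw [hxre]) (by rw [hxim, ← hy]; ring)
          rw [this]; exact hxJ
  set e : ℂ := x (S, S) with he
  have heim : e.im = 2 * (u S).im := by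
    rw [he, hxim]; simp only [eσS, eτS]; ring
  have heJ' : e ∈ Jᶜ := fun h => heJ e h heim
  set E : Set ℂ := connectedComponentIn Jᶜ e with hE
  have hEopen : IsOpen E := hJc.isOpen_compl.connectedComponentIn
  have hxm : x (0, 1) = ((((u 0).re + (u 1).re) / 2 : ℝ) : ℂ) := by
    apply Complex.ext
    · rw [hxre, Complex.ofReal_re]; simp only [eσ0, eτ1]
    · rw [hxim, Complex.ofReal_im]; simp only [eσ0, eτ1, h0, h1, add_zero]
  have hmE : x (0, 1) ∉ E := by
    intro hm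
    have hconn : IsConnected E := isConnected_connectedComponentIn_iff.2 heJ'
    have hpath : IsPathConnected E := hEopen.isConnected_iff_isPathConnected.1 hconn
    obtain ⟨γ, hγ⟩ := hpath.joinedIn _ hm e (mem_connectedComponentIn heJ')
    set γ' : ℝ → ℂ := fun s => (((γ.extend s).re : ℝ) : ℂ)
      + ((|(γ.extend s).im| : ℝ) : ℂ) * Complex.I with hγ'
    have hγ'c : Continuous γ' := by
      apply Continuous.add
      · exact Complex.continuous_ofReal.comp (Complex.continuous_re.comp γ.continuous_extend)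
      · apply Continuous.mul _ continuous_const
        apply Complex.continuous_ofReal.comp
        exact (Complex.continuous_im.comp γ.continuous_extend).abs
    have hγ're : ∀ s, (γ' s).re = (γ.extend s).re := by intro s; simp [hγ']
    have hγ'im : ∀ s, (γ' s).im = |(γ.extend s).im| := by intro s; simp [hγ']
    have hγJ : ∀ s, γ.extend s ∉ J := by
      intro s hs
      have h2 : γ.extend s ∈ range γ.extend := ⟨s, rfl⟩
      rw [Path.extend_range] at h2
      obtain ⟨t, ht⟩ := h2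
      have h3 := connectedComponentIn_subset _ _ (hγ t)
      rw [ht] at h3
      exact h3 hs
    have hγ'J : ∀ s, γ' s ∉ J := by
      intro s hs
      rcases abs_choice (γ.extend s).im with h | h
      · apply hγJ s
        have : γ.extend s = γ' s := Complex.ext (hγ're s).symm (by rw [hγ'im, h])
        rw [this]; exact hs
      · apply hγJ s
        have : γ.extend s = (starRingEnd ℂ) (γ' s) :=
          Complex.ext (by rw [Complex.conj_re, hγ're]) (by rw [Complex.conj_im, hγ'im, h]; ring)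
        rw [this]; exact hconj _ hs
    set κ : ℝ → ℝ := fun t => max 0 (min t 1) with hκ
    have hκI : ∀ t, κ t ∈ Icc (0 : ℝ) 1 := fun t =>
      ⟨le_max_left _ _, max_le zero_le_one (min_le_right _ _)⟩
    have hκ0 : κ 0 = 0 := by simp [hκ]
    have hκ1 : κ 1 = 1 := by simp [hκ]
    obtain ⟨s, t, hst⟩ := half_cross (fun t => u (κ t)) γ' (hu.comp (by fun_prop)) hγ'c
      (((u 0).re + (u 1).re) / 2)
      (by show (u (κ 0)).im = 0; rw [hκ0]; exact h0)
      (by show (u (κ 1)).im = 0; rw [hκ1]; exact h1)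
      (by show (u (κ 0)).re < _; rw [hκ0]; linarith)
      (by show _ < (u (κ 1)).re; rw [hκ1]; linarith)
      (fun t => hnn _ (hκI t))
      (by
        apply Complex.ext
        · rw [hγ're, Path.extend_zero, hxm]
        · rw [hγ'im, Path.extend_zero, hxm, Complex.ofReal_im, abs_zero])
      (fun s => by rw [hγ'im]; exact abs_nonneg _)
      (fun t => by
        rw [hγ'im, Path.extend_one, heim, abs_of_nonneg (by linarith)]
        have := hmax _ (hκI t)
        show (u (κ t)).im ≤ _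
        linarith)
    exact hγ'J s (by rw [hst]; exact huJ _)
  set V : Set (ℝ × ℝ) := x ⁻¹' E with hV
  have hVo : IsOpen V := hEopen.preimage hxc
  set Z1 : Set (ℝ × ℝ) := x ⁻¹' J ∩ F ⁻¹' Ici 0 with hZ1
  set Z2 : Set (ℝ × ℝ) := x ⁻¹' J ∩ F ⁻¹' Iic 0 with hZ2
  have hfr : frontier V ⊆ Z1 ∪ Z2 := by
    intro z hz
    have hzJ : x z ∈ J := by
      by_contra hzJ
      have hzJ' : x z ∈ Jᶜ := hzJ
      set E' : Set ℂ := connectedComponentIn Jᶜ (x z) with hE'
      have hE'o : IsOpen E' := hJc.isOpen_compl.connectedComponentIn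
      have hmem : x z ∈ E' := mem_connectedComponentIn hzJ'
      rw [hVo.frontier_eq] at hz
      obtain ⟨hz1, hz2⟩ := hz
      have hnhd : x ⁻¹' E' ∈ 𝓝 z := (hE'o.preimage hxc).mem_nhds hmem
      obtain ⟨y, hy1, hy2⟩ := mem_closure_iff_nhds.1 hz1 _ hnhd
      have e1 : connectedComponentIn Jᶜ (x y) = E' := (connectedComponentIn_eq hy1).symm
      have e2 : connectedComponentIn Jᶜ (x y) = E := (connectedComponentIn_eq hy2).symm
      apply hz2
      show x z ∈ E
      rw [← e2, e1]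
      exact hmem
    rcases le_total 0 (F z) with h | h
    · exact Or.inl ⟨hzJ, h⟩
    · exact Or.inr ⟨hzJ, h⟩
  set A0 : Set (ℝ × ℝ) := (fun y => ((0 : ℝ), y)) '' univ with hA0
  set A1 : Set (ℝ × ℝ) := (fun y => (y, S)) '' univ with hA1
  set B0 : Set (ℝ × ℝ) := (fun y => (S, y)) '' univ with hB0
  set B1 : Set (ℝ × ℝ) := (fun y => (y, (1 : ℝ))) '' univ with hB1
  have cA0 : IsPreconnected A0 := isPreconnected_univ.image _ (by fun_prop)
  have cA1 : IsPreconnected A1 := isPreconnected_univ.image _ (by fun_prop)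
  have cB0 : IsPreconnected B0 := isPreconnected_univ.image _ (by fun_prop)
  have cB1 : IsPreconnected B1 := isPreconnected_univ.image _ (by fun_prop)
  have n1 : ((0, S) : ℝ × ℝ) ∈ A0 := ⟨S, trivial, rfl⟩
  have n2 : ((0, S) : ℝ × ℝ) ∈ A1 := ⟨0, trivial, rfl⟩
  have n3 : ((S, 1) : ℝ × ℝ) ∈ B0 := ⟨1, trivial, rfl⟩
  have n4 : ((S, 1) : ℝ × ℝ) ∈ B1 := ⟨S, trivial, rfl⟩
  have cK1 : IsPreconnected (A0 ∪ A1) := IsPreconnected.union _ n1 n2 cA0 cA1
  have cK2 : IsPreconnected (B0 ∪ B1) := IsPreconnected.union _ n3 n4 cB0 cB1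
  have FK1 : ∀ z ∈ A0 ∪ A1, F z ≤ 0 := by
    rintro z (⟨y, _, rfl⟩ | ⟨y, _, rfl⟩)
    · show (u (σ 0)).im - (u (τ y)).im ≤ 0
      rw [eσ0, h0]
      linarith [hnn _ (hτI y)]
    · show (u (σ y)).im - (u (τ S)).im ≤ 0
      rw [eτS]
      linarith [hmax _ (hσI y)]
  have FK2 : ∀ z ∈ B0 ∪ B1, 0 ≤ F z := by
    rintro z (⟨y, _, rfl⟩ | ⟨y, _, rfl⟩)
    · show 0 ≤ (u (σ S)).im - (u (τ y)).im
      rw [eσS]
      linarith [hmax _ (hτI y)]
    · show 0 ≤ (u (σ y)).im - (u (τ 1)).im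
      rw [eτ1, h1]
      linarith [hnn _ (hσI y)]
  apply janis V Z1 Z2 (A0 ∪ A1) (B0 ∪ B1)
    ((hJc.preimage hxc).inter (isClosed_Ici.preimage hFc))
    ((hJc.preimage hxc).inter (isClosed_Iic.preimage hFc)) _ hfr cK1 cK2 _ _ (0, 1) (S, S)
  · exact Or.inl ⟨1, trivial, rfl⟩
  · exact Or.inr ⟨0, trivial, rfl⟩
  · exact Or.inr ⟨S, trivial, rfl⟩
  · exact Or.inl ⟨S, trivial, rfl⟩
  · exact hmE
  · exact mem_connectedComponentIn heJ'
  · rw [Set.disjoint_left]
    rintro z ⟨hz, hz1⟩ ⟨_, hz2⟩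
    exact hno z (le_antisymm hz2 hz1) hz
  · rw [Set.disjoint_left]
    rintro z hz ⟨hzJ, hz1⟩
    exact hno z (le_antisymm (FK1 z hz) hz1) hzJ
  · rw [Set.disjoint_left]
    rintro z hz ⟨hzJ, hz1⟩
    exact hno z (le_antisymm hz1 (FK2 z hz)) hzJ


theorem line_core' (J : Set ℂ) (hJc : IsClosed J) (hconj : ∀ z ∈ J, (starRingEnd ℂ) z ∈ J)
    (u : ℝ → ℂ) (hu : Continuous u) (huJ : ∀ s, u s ∈ J) (hinj : InjOn u (Icc 0 1))
    (hpos : ∀ s ∈ Ioo (0 : ℝ) 1, 0 < (u s).im) (h0 : (u 0).im = 0) (h1 : (u 1).im = 0)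
    (hcov : ∀ z ∈ J, 0 ≤ z.im → ∃ s ∈ Icc (0 : ℝ) 1, u s = z) :
    ∃ c d y : ℝ, d ≠ 0 ∧ y ≠ 0 ∧ (⟨c + d, y⟩ : ℂ) ∈ J ∧ (⟨c - d, y⟩ : ℂ) ∈ J ∧
      (⟨c, 2 * y⟩ : ℂ) ∈ J := by
  rcases lt_trichotomy (u 0).re (u 1).re with h | h | h
  · exact line_core J hJc hconj u hu huJ hinj hpos h0 h1 hcov h
  · exfalso
    have h2 : u 0 = u 1 := Complex.ext h (by rw [h0, h1])
    have h3 := hinj ⟨le_rfl, zero_le_one⟩ ⟨zero_le_one, le_rfl⟩ h2
    exact zero_ne_one h3
  · apply line_core J hJc hconj (fun s => u (1 - s)) (hu.comp (by fun_prop)) (fun s => huJ _)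
    · intro s hs t ht hst
      have h2 := hinj (⟨by linarith [hs.2], by linarith [hs.1]⟩ : (1 - s) ∈ Icc (0 : ℝ) 1)
        (⟨by linarith [ht.2], by linarith [ht.1]⟩ : (1 - t) ∈ Icc (0 : ℝ) 1) hst
      linarith
    · intro s hs
      exact hpos (1 - s) ⟨by linarith [hs.2], by linarith [hs.1]⟩
    · show (u (1 - 0)).im = 0
      rw [sub_zero]; exact h1
    · show (u (1 - 1)).im = 0
      rw [sub_self]; exact h0
    · intro z hz hzi
      obtain ⟨s, hs, hsz⟩ := hcov z hz hzi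
      refine ⟨1 - s, ⟨by linarith [hs.2], by linarith [hs.1]⟩, ?_⟩
      show u (1 - (1 - s)) = z
      rw [sub_sub_cancel]; exact hsz
    · show (u (1 - 0)).re < (u (1 - 1)).re
      rw [sub_zero, sub_self]; exact h

theorem line_pos (g : Circle → ℂ) (hg : Continuous g) (hinj : Function.Injective g)
    (hsym : ∀ z, g z⁻¹ = (starRingEnd ℂ) (g z))
    (hhalf : 0 < (g (Circle.exp (Real.pi / 2))).im) :
    ∃ c d y : ℝ, d ≠ 0 ∧ y ≠ 0 ∧ (⟨c + d, y⟩ : ℂ) ∈ range g ∧ (⟨c - d, y⟩ : ℂ) ∈ range g ∧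
      (⟨c, 2 * y⟩ : ℂ) ∈ range g := by
  have hpi := Real.pi_pos
  set k : ℝ → ℂ := fun φ => g (Circle.exp φ) with hk
  have hkc : Continuous k := hg.comp Circle.exp.continuous
  have hkneg : ∀ φ, k (-φ) = (starRingEnd ℂ) (k φ) := by
    intro φ
    show g (Circle.exp (-φ)) = _
    rw [Circle.exp_neg]; exact hsym _
  have hreal : ∀ φ, (k φ).im = 0 → ∃ m : ℤ, φ = m * Real.pi := by
    intro φ h
    have h2 : k (-φ) = k φ := by
      rw [hkneg]
      exact Complex.conj_eq_iff_im.2 h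
    have h3 := hinj h2
    rw [Circle.exp_eq_exp] at h3
    obtain ⟨m, hm⟩ := h3
    refine ⟨-m, ?_⟩
    push_cast
    linarith
  have hne : ∀ φ ∈ Ioo (0 : ℝ) Real.pi, (k φ).im ≠ 0 := by
    rintro φ ⟨hφ0, hφ1⟩ h
    obtain ⟨m, hm⟩ := hreal φ h
    have h2 : (0 : ℝ) < m := by
      by_contra hc
      push Not at hc
      have := mul_nonpos_of_nonpos_of_nonneg hc hpi.le
      linarith
    have h3 : (m : ℝ) < 1 := by
      by_contra hc
      push Not at hc
      nlinarith
    have h4 : 0 < m := by exact_mod_cast h2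
    have h5 : m < 1 := by exact_mod_cast h3
    omega
  have hoc : ((fun φ => (k φ).im) '' Ioo (0 : ℝ) Real.pi).OrdConnected :=
    (isPreconnected_Ioo.image _ (Complex.continuous_im.comp hkc).continuousOn).ordConnected
  have hposk : ∀ φ ∈ Ioo (0 : ℝ) Real.pi, 0 < (k φ).im := by
    intro φ hφ
    by_contra hc
    push Not at hc
    have h2 : (0 : ℝ) ∈ (fun φ => (k φ).im) '' Ioo (0 : ℝ) Real.pi :=
      hoc.out ⟨φ, hφ, rfl⟩ ⟨Real.pi / 2, ⟨by linarith, by linarith⟩, rfl⟩ ⟨hc, hhalf.le⟩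
    obtain ⟨ψ, hψ, hψ0⟩ := h2
    exact hne ψ hψ hψ0
  have hk0 : (k 0).im = 0 := by
    have h2 := hkneg 0
    rw [neg_zero] at h2
    exact Complex.conj_eq_iff_im.1 h2.symm
  have hkπ : (k Real.pi).im = 0 := by
    have h2 := hkneg Real.pi
    have h3 : k (-Real.pi) = k Real.pi := by
      show g (Circle.exp (-Real.pi)) = g (Circle.exp Real.pi)
      congr 1
      rw [Circle.exp_eq_exp]
      exact ⟨-1, by push_cast; ring⟩
    rw [h3] at h2
    exact Complex.conj_eq_iff_im.1 h2.symm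
  apply line_core' (range g) (isCompact_range hg).isClosed
    (by rintro _ ⟨z, rfl⟩; exact ⟨z⁻¹, hsym z⟩) (fun s => k (Real.pi * s))
    (hkc.comp (by fun_prop)) (fun s => ⟨_, rfl⟩)
  · intro s hs t ht hst
    have h3 := hinj hst
    rw [Circle.exp_eq_exp] at h3
    obtain ⟨m, hm⟩ := h3
    have h4 : s = t + 2 * m := by
      have : Real.pi * (s - t - 2 * m) = 0 := by linarith
      rcases mul_eq_zero.1 this with h | h
      · linarith
      · linarith
    have h5 : (m : ℝ) < 1 := by linarith [hs.2, ht.1]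
    have h6 : (-1 : ℝ) < m := by linarith [hs.1, ht.2]
    have h7 : m < 1 := by exact_mod_cast h5
    have h8 : -1 < m := by exact_mod_cast h6
    have h9 : m = 0 := by omega
    rw [h9] at h4
    push_cast at h4
    linarith
  · intro s hs
    exact hposk _ ⟨mul_pos hpi hs.1, by nlinarith [hs.2]⟩
  · show (k (Real.pi * 0)).im = 0
    rw [mul_zero]; exact hk0
  · show (k (Real.pi * 1)).im = 0
    rw [mul_one]; exact hkπ
  · rintro _ ⟨ξ, rfl⟩ hξ
    have e1 : Circle.exp (Complex.arg ξ) = ξ := Circle.exp_arg ξ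
    have h2 : Complex.arg ξ ≤ Real.pi := Complex.arg_le_pi _
    have h3 : -Real.pi < Complex.arg ξ := Complex.neg_pi_lt_arg _
    rcases le_or_gt 0 (Complex.arg ξ) with h | h
    · refine ⟨Complex.arg ξ / Real.pi, ⟨by positivity, by rw [div_le_one hpi]; exact h2⟩, ?_⟩
      show g (Circle.exp (Real.pi * (Complex.arg ξ / Real.pi))) = g ξ
      rw [mul_div_cancel₀ _ hpi.ne', e1]
    · exfalso
      have h4 := hposk (-Complex.arg ξ) ⟨by linarith, by linarith⟩
      rw [hkneg, Complex.conj_im] at h4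
      have h5 : k (Complex.arg ξ) = g ξ := by show g (Circle.exp _) = g ξ; rw [e1]
      rw [h5] at h4
      linarith

theorem line_all (g : Circle → ℂ) (hg : Continuous g) (hinj : Function.Injective g)
    (hsym : ∀ z, g z⁻¹ = (starRingEnd ℂ) (g z)) :
    ∃ c d y : ℝ, d ≠ 0 ∧ y ≠ 0 ∧ (⟨c + d, y⟩ : ℂ) ∈ range g ∧ (⟨c - d, y⟩ : ℂ) ∈ range g ∧
      (⟨c, 2 * y⟩ : ℂ) ∈ range g := by
  rcases lt_or_ge 0 (g (Circle.exp (Real.pi / 2))).im with h | h
  · exact line_pos g hg hinj hsym h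
  · have hne : (g (Circle.exp (Real.pi / 2))).im ≠ 0 := by
      intro h0
      have h2 : g (Circle.exp (Real.pi / 2))⁻¹ = g (Circle.exp (Real.pi / 2)) := by
        rw [hsym]; exact Complex.conj_eq_iff_im.2 h0
      have h3 := hinj h2
      rw [← Circle.exp_neg, Circle.exp_eq_exp] at h3
      obtain ⟨m, hm⟩ := h3
      have hpi := Real.pi_pos
      have h4 : (2 * (m : ℝ) + 1) * Real.pi = 0 := by linarith
      rcases mul_eq_zero.1 h4 with h5 | h5
      · have h6 : (2 * m + 1 : ℤ) = 0 := by exact_mod_cast h5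
        omega
      · linarith
    have hlt : (g (Circle.exp (Real.pi / 2))).im < 0 := lt_of_le_of_ne h hne
    obtain ⟨c, d, y, hd, hy, q1, q2, q3⟩ := line_pos (fun z => g z⁻¹) (hg.comp continuous_inv)
      (fun a b hab => inv_injective (hinj hab))
      (by intro z; show g z⁻¹⁻¹ = (starRingEnd ℂ) (g z⁻¹); rw [← hsym])
      (by show 0 < (g (Circle.exp (Real.pi / 2))⁻¹).im; rw [hsym, Complex.conj_im]; linarith)
    have hr : ∀ x, x ∈ range (fun z => g z⁻¹) → x ∈ range g := by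
      rintro _ ⟨z, rfl⟩
      exact ⟨z⁻¹, rfl⟩
    exact ⟨c, d, y, hd, hy, hr _ q1, hr _ q2, hr _ q3⟩

/-- Jordan curves with an affine reflection symmetry. -/
theorem main_line (f : Circle → ℂ) (hf : Continuous f) (hinj : Function.Injective f)
    (B : AffineEquiv ℝ ℂ ℂ) (hsym : ∀ z, B (f z⁻¹) = (starRingEnd ℂ) (B (f z))) :
    ∃ A : AffineEquiv ℝ ℂ ℂ, ∀ k : Fin 6,
      A (Complex.exp (2 * (Real.pi : ℂ) * Complex.I * ((k : ℕ) : ℂ) / 6)) ∈ Set.range f := by
  have hB : Continuous B := B.toAffineMap.continuous_of_finiteDimensional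
  set g : Circle → ℂ := fun z => B (f z) with hgdef
  obtain ⟨c, d, y, hd, hy, q1, q2, q3⟩ := line_all g (hB.comp hf) (B.injective.comp hinj) hsym
  have hconj : ∀ z ∈ range g, (starRingEnd ℂ) z ∈ range g := by
    rintro _ ⟨z, rfl⟩
    exact ⟨z⁻¹, hsym z⟩
  set v1 : ℂ := ⟨d, y⟩ with hv1
  set v2 : ℂ := ⟨0, 2 * y⟩ with hv2
  set R : Set ℂ := {z | z = v1 ∨ z = v2 ∨ z = v2 - v1 ∨ z = -v1 ∨ z = -v2 ∨ z = -(v2 - v1)}
    with hR
  have hneg : ∀ x ∈ R, -x ∈ R := by
    rintro x (h | h | h | h | h | h) <;> rw [h]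
    · exact Or.inr (Or.inr (Or.inr (Or.inl rfl)))
    · exact Or.inr (Or.inr (Or.inr (Or.inr (Or.inl rfl))))
    · exact Or.inr (Or.inr (Or.inr (Or.inr (Or.inr rfl))))
    · rw [neg_neg]; exact Or.inl rfl
    · rw [neg_neg]; exact Or.inr (Or.inl rfl)
    · rw [neg_neg]; exact Or.inr (Or.inr (Or.inl rfl))
  have hv20 : v2 ≠ 0 := by
    intro h
    have := congrArg Complex.im h
    simp [hv2] at this
    exact hy this
  obtain ⟨L, hL⟩ := hexagon_lin R hneg v2 v1 hv20 (Or.inr (Or.inl rfl)) (Or.inl rfl)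
    (Or.inr (Or.inr (Or.inl rfl))) (by
      intro t ht
      have := congrArg Complex.re ht
      simp [hv1, hv2] at this
      exact hd this)
  have hRg : ∀ x ∈ R, (c : ℂ) + x ∈ range g := by
    rintro x (h | h | h | h | h | h) <;> rw [h]
    · convert q1 using 1
      apply Complex.ext <;> simp [hv1]
    · convert q3 using 1
      apply Complex.ext <;> simp [hv2]
    · convert q2 using 1
      apply Complex.ext <;> simp [hv1, hv2] <;> ring
    · convert hconj _ q2 using 1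
      apply Complex.ext <;> simp [hv1] <;> ring
    · convert hconj _ q3 using 1
      apply Complex.ext <;> simp [hv2]
    · convert hconj _ q1 using 1
      apply Complex.ext <;> simp [hv1, hv2] <;> ring
  refine ⟨(L.toAffineEquiv.trans (AffineEquiv.constVAdd ℝ ℂ (c : ℂ))).trans B.symm, ?_⟩
  intro k
  obtain ⟨z, hz⟩ := hRg _ (hL k)
  refine ⟨z, ?_⟩
  show f z = B.symm ((c : ℂ) + L _)
  rw [← hz]
  show f z = B.symm (B (f z))
  rw [B.symm_apply_apply]

end Pool.Agent.Helper590.Hex
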